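import Mathlib

/-!
# Characters of order four of finite fields, and the number of the zeros of diagonal forms
-/

set_option autoImplicit false
set_option linter.unusedSectionVars false
set_option linter.style.haveILetI false

namespace Pool.Agent.T2h16.Q4

open Finset

section field

variable {k : Type} [Field k] [Fintype k]

/-- the character of order four exists -/
theorem exists_quartic (h : 4 ∣ Fintype.card k - 1) : ∃ χ : MulChar k ℂ, orderOf χ = 4 := by
  have h1 : IsPrimitiveRoot (Complex.exp (2 * Real.pi * Complex.I / (4 : ℕ))) 4 :=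
    Complex.isPrimitiveRoot_exp 4 (by norm_num)
  exact MulChar.exists_mulChar_orderOf k h h1

lemma chi_pow_one {χ : MulChar k ℂ} {n : ℕ} (h : χ ^ n = 1) {x : k} (hx : x ≠ 0) :
    χ x ^ n = 1 := by
  have h1 : (χ ^ n) ((Units.mk0 x hx : kˣ) : k) = (1 : MulChar k ℂ) (Units.mk0 x hx : kˣ) := by
    rw [h]
  rw [MulChar.pow_apply_coe, MulChar.one_apply_coe, Units.val_mk0] at h1
  exact h1

/-- the number of `n`-th roots -/
lemma card_roots {n : ℕ} (hn : 0 < n) {χ : MulChar k ℂ} (h : orderOf χ = n) (a : k) :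
    ((Nat.card {x : k // x ^ n = a} : ℕ) : ℂ) = 1 + ∑ j ∈ Finset.Ico 1 n, χ a ^ j := by
  classical
  have hpow : χ ^ n = 1 := by rw [← h]; exact pow_orderOf_eq_one χ
  by_cases ha : a = 0
  · subst ha
    have e : Nat.card {x : k // x ^ n = 0} = 1 := by
      rw [Nat.card_eq_one_iff_unique]
      refine ⟨⟨fun x y => Subtype.ext ?_⟩, ⟨⟨0, zero_pow hn.ne'⟩⟩⟩
      have hx := (pow_eq_zero_iff hn.ne').1 x.2
      have hy := (pow_eq_zero_iff hn.ne').1 y.2
      rw [hx, hy]
    rw [e, Finset.sum_eq_zero]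
    · simp
    · intro j hj
      rw [MulChar.map_zero, zero_pow]
      have := (Finset.mem_Ico.1 hj).1
      omega
  · obtain ⟨g, hg⟩ := IsCyclic.exists_generator (α := kˣ)
    have hgo : orderOf g = Fintype.card k - 1 := by
      rw [orderOf_eq_card_of_forall_mem_zpowers hg, Nat.card_eq_fintype_card, Fintype.card_units]
    have hdvd : n ∣ Fintype.card k - 1 := by
      rw [← h]
      exact MulChar.orderOf_dvd_card_sub_one k χ
    have hord : ∀ m : ℕ, χ g ^ m = 1 → n ∣ m := by
      intro m hm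
      rw [← h]
      apply orderOf_dvd_of_pow_eq_one
      rw [MulChar.eq_iff hg, MulChar.pow_apply_coe, MulChar.one_apply_coe]
      exact hm
    obtain ⟨m, hm⟩ := hdvd
    have hq : 1 < Fintype.card k := Fintype.one_lt_card
    have hm0 : m ≠ 0 := by
      rintro rfl
      omega
    have hprim : IsPrimitiveRoot ((g : k) ^ m) n := by
      have h1 : IsPrimitiveRoot (g : k) (Fintype.card k - 1) := by
        rw [IsPrimitiveRoot.coe_units_iff, ← hgo]
        exact IsPrimitiveRoot.orderOf g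
      exact h1.pow (by omega) (by rw [hm, mul_comm])
    have hcard : Nat.card {x : k // x ^ n = a} = if ∃ α, α ^ n = a then n else 0 := by
      have h0 := hprim.card_nthRoots a
      rw [show (if ∃ α, α ^ n = a then n else 0) = (Polynomial.nthRoots n a).card by
        rw [h0]; congr 1]
      have h2 : Nat.card {x : k // x ^ n = a} = (Polynomial.nthRoots n a).toFinset.card := by
        rw [Nat.card_eq_fintype_card, Fintype.card_subtype]
        congr 1
        ext x
        simp [Polynomial.mem_nthRoots hn]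
      rw [h2, Multiset.toFinset_card_of_nodup (hprim.nthRoots_nodup ha)]
    rw [hcard]
    have hsum : (1 : ℂ) + ∑ j ∈ Finset.Ico 1 n, χ a ^ j = ∑ j ∈ Finset.range n, χ a ^ j := by
      rw [Finset.range_eq_Ico, Finset.sum_eq_sum_Ico_succ_bot hn, pow_zero]
    rw [hsum]
    by_cases hc : ∃ α, α ^ n = a
    · obtain ⟨α, hα⟩ := hc
      rw [if_pos ⟨α, hα⟩]
      have hα0 : α ≠ 0 := by
        rintro rfl
        apply ha
        rw [← hα, zero_pow hn.ne']
      have h1 : χ a = 1 := by
        rw [← hα, map_pow]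
        exact chi_pow_one hpow hα0
      rw [h1]
      simp
    · rw [if_neg hc]
      obtain ⟨j, hj⟩ := (mem_powers_iff_mem_zpowers.2 (hg (Units.mk0 a ha)))
      have hj' : a = (g : k) ^ j := by
        have := congrArg Units.val hj
        simpa using this.symm
      have h1 : χ a ≠ 1 := by
        intro h2
        rw [hj', map_pow] at h2
        obtain ⟨i, hi⟩ := hord j h2
        apply hc
        refine ⟨(g : k) ^ i, ?_⟩
        rw [← pow_mul, mul_comm, ← hi]
        exact hj'.symm
      have h2 := mul_geom_sum (χ a) n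
      rw [chi_pow_one hpow ha, sub_self] at h2
      rw [(mul_eq_zero.1 h2).resolve_left (sub_ne_zero.2 h1)]
      simp

/-- sums over the `n`-th powers -/
lemma sum_roots {n : ℕ} (hn : 0 < n) {χ : MulChar k ℂ} (h : orderOf χ = n) (f : k → ℂ) :
    ∑ x : k, f (x ^ n) = ∑ a : k, (1 + ∑ j ∈ Finset.Ico 1 n, χ a ^ j) * f a := by
  classical
  rw [← Finset.sum_fiberwise (s := Finset.univ) (g := fun x : k => x ^ n)]
  refine Finset.sum_congr rfl fun a _ => ?_
  rw [← card_roots hn h a]
  rw [Finset.sum_congr rfl (g := fun _ => f a)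
    (fun x hx => by rw [(Finset.mem_filter.1 hx).2])]
  rw [Finset.sum_const, nsmul_eq_mul, Nat.card_eq_fintype_card, Fintype.card_subtype]

lemma psi_line {ψ : AddChar k ℂ} (hψ : ψ ≠ 1) {t : k} (ht : t ≠ 0) : ∑ a : k, ψ (t * a) = 0 := by
  have hp : ψ.IsPrimitive := AddChar.IsPrimitive.of_ne_one hψ
  have h2 : ψ.mulShift t ≠ 1 := hp ht
  have h3 := AddChar.sum_eq_zero_of_ne_one h2
  simpa [AddChar.mulShift_apply] using h3

lemma gauss_shift (φ : MulChar k ℂ) (ψ : AddChar k ℂ) {t : k} (ht : t ≠ 0) :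
    ∑ a : k, φ a * ψ (t * a) = φ⁻¹ t * gaussSum φ ψ := by
  have h2 := gaussSum_mulShift φ ψ (Units.mk0 t ht)
  have h3 : φ t * φ⁻¹ t = 1 := by
    rw [MulChar.inv_apply' , ← map_mul, mul_inv_cancel₀ ht, map_one]
  rw [Units.val_mk0] at h2
  rw [← h2]
  have h4 : gaussSum φ (ψ.mulShift t) = ∑ a : k, φ a * ψ (t * a) := by
    unfold gaussSum
    simp [AddChar.mulShift_apply]
  rw [h4]
  linear_combination (-(∑ a : k, φ a * ψ (t * a))) * h3

/-- the Gauss sums of the powers -/
noncomputable def G (χ : MulChar k ℂ) (ψ : AddChar k ℂ) (c : ℕ) : ℂ := gaussSum (χ ^ c) ψ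

/-- the exponential sum for the `n`-th powers -/
lemma exp_sum {n : ℕ} (hn : 0 < n) {χ : MulChar k ℂ} (h : orderOf χ = n) {ψ : AddChar k ℂ}
    (hψ : ψ ≠ 1) {t : k} (ht : t ≠ 0) :
    ∑ x : k, ψ (t * x ^ n) = ∑ c ∈ Finset.Ico 1 n, (χ⁻¹ t) ^ c * G χ ψ c := by
  rw [sum_roots hn h (fun y => ψ (t * y))]
  have e1 : ∀ a : k, (1 + ∑ j ∈ Finset.Ico 1 n, χ a ^ j) * ψ (t * a) =
      ψ (t * a) + ∑ j ∈ Finset.Ico 1 n, (χ ^ j) a * ψ (t * a) := by
    intro a
    rw [add_mul, one_mul, Finset.sum_mul]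
    congr 1
    refine Finset.sum_congr rfl fun j hj => ?_
    have hj0 : j ≠ 0 := by
      have := (Finset.mem_Ico.1 hj).1
      omega
    rw [MulChar.pow_apply' _ hj0]
  rw [Finset.sum_congr rfl fun a _ => e1 a, Finset.sum_add_distrib, psi_line hψ ht, zero_add,
    Finset.sum_comm]
  refine Finset.sum_congr rfl fun j hj => ?_
  have hj0 : j ≠ 0 := by
    have := (Finset.mem_Ico.1 hj).1
    omega
  rw [gauss_shift _ _ ht, ← inv_pow, MulChar.pow_apply' _ hj0]
  rfl

end field

end Pool.Agent.T2h16.Q4
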