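import Mathlib
import Pool.Agent.N883.C.Ext
import Pool.Agent.T2h16.Q4.Quar

/-!
# The number of the zeros of `∑ a i x i ^ d i`, `d i = 2, 4`, in five variables
-/

set_option autoImplicit false
set_option linter.unusedSectionVars false
set_option linter.style.haveILetI false

namespace Pool.Agent.T2h16.Q4

open Finset
open Pool.Agent.N883.C (sum_psi psi_sum chE chE_apply chE_algebraMap chE_mul chE_one chE_inv
  gauss_E sgn_aux sgn_sq q_ne chE_ne_one)

/-- the exponents `c` of the characters of order dividing `d`, `4` -/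
def Cs (d : ℕ) : Finset ℕ := (Finset.Icc 1 3).filter fun c => 4 ∣ d * c

/-- the exponents that occur in the middle cohomology, one of each pair of conjugates -/
def Ty (d : Fin 5 → ℕ) : Finset (Fin 5 → ℕ) :=
  (Fintype.piFinset fun i => Cs (d i)).filter fun c => ∑ i, c i = 8

/-- the twists -/
def tw {R : Type} [CommRing R] (a : Fin 5 → R) (c : Fin 5 → ℕ) : R :=
  (-1) ^ (univ.filter fun i => c i = 3).card * ∏ i, a i ^ c i

lemma tw_map {R S : Type} [CommRing R] [CommRing S] (f : R →+* S) (a : Fin 5 → R)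
    (c : Fin 5 → ℕ) : tw (fun i => f (a i)) c = f (tw a c) := by
  simp [tw, map_mul, map_prod, map_pow]

/-- the affine cone -/
def Cn {k : Type} [Field k] (d : Fin 5 → ℕ) (a : Fin 5 → k) : Type :=
  {x : Fin 5 → k // ∑ i, a i * x i ^ d i = 0}

section
variable {k : Type} [Field k] [Fintype k] {χ : MulChar k ℂ}

lemma tw_ne {a : Fin 5 → k} (ha : ∀ i, a i ≠ 0) (c : Fin 5 → ℕ) : tw a c ≠ 0 :=
  mul_ne_zero (pow_ne_zero _ (neg_ne_zero.2 one_ne_zero))
    (prod_ne_zero_iff.2 fun i _ => pow_ne_zero _ (ha i))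

lemma exp_sum' (h : orderOf χ = 4) {ψ : AddChar k ℂ} (hψ : ψ ≠ 1) {d : ℕ} (hd : d = 2 ∨ d = 4)
    {t : k} (ht : t ≠ 0) :
    ∑ x : k, ψ (t * x ^ d) = ∑ c ∈ Cs d, (χ⁻¹ t) ^ c * G χ ψ c := by
  rcases hd with rfl | rfl
  · have h2 : orderOf (χ ^ 2) = 2 := by
      rw [orderOf_pow' _ two_ne_zero, h]; rfl
    rw [exp_sum two_pos h2 hψ ht]
    have e1 : Cs 2 = {2} := by decide
    have e2 : Finset.Ico 1 2 = {1} := by decide
    rw [e1, e2, Finset.sum_singleton, Finset.sum_singleton, pow_one, ← inv_pow,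
      MulChar.pow_apply' _ two_ne_zero]
    unfold G
    rw [pow_one]
  · rw [exp_sum (by norm_num) h hψ ht]
    have e1 : Cs 4 = Finset.Ico 1 4 := by decide
    rw [e1]

lemma chi_mem {c : Fin 5 → ℕ} {d : Fin 5 → ℕ} (hc : c ∈ Fintype.piFinset fun i => Cs (d i))
    (i : Fin 5) : 1 ≤ c i ∧ c i ≤ 3 := by
  have h1 := Fintype.mem_piFinset.1 hc i
  unfold Cs at h1
  exact Finset.mem_Icc.1 (Finset.mem_filter.1 h1).1

open scoped Classical in
lemma sum_pow4 (h : orderOf χ = 4) (j : ℕ) :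
    ∑ t ∈ (univ : Finset k).erase 0, (χ⁻¹ t) ^ j =
      if 4 ∣ j then (Fintype.card k - 1 : ℂ) else 0 := by
  have h4 : χ ^ 4 = 1 := by rw [← h]; exact pow_orderOf_eq_one χ
  by_cases hj : 4 ∣ j
  · rw [if_pos hj]
    obtain ⟨m, rfl⟩ := hj
    have key : ∀ t ∈ (univ : Finset k).erase 0, (χ⁻¹ t) ^ (4 * m) = 1 := by
      intro t ht
      rw [pow_mul, chi_pow_one (by rw [inv_pow, h4, inv_one]) (ne_of_mem_erase ht), one_pow]
    rw [Finset.sum_congr rfl key, Finset.sum_const, nsmul_eq_mul, mul_one,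
      Finset.card_erase_of_mem (Finset.mem_univ _), Finset.card_univ, Nat.cast_sub
      (Fintype.card_pos), Nat.cast_one]
  · rw [if_neg hj]
    have hj0 : j ≠ 0 := by
      rintro rfl
      exact hj (dvd_zero 4)
    have h1 : (χ⁻¹) ^ j ≠ 1 := by
      intro h2
      rw [inv_pow, inv_eq_one] at h2
      apply hj
      rw [← h]
      exact orderOf_dvd_of_pow_eq_one h2
    have h2 := MulChar.sum_eq_zero_of_ne_one h1
    rw [← Finset.add_sum_erase _ _ (Finset.mem_univ (0 : k)), MulChar.map_zero, zero_add] at h2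
    rw [← h2]
    refine Finset.sum_congr rfl fun t _ => ?_
    rw [MulChar.pow_apply' _ hj0]

open scoped Classical in
/-- the number of the zeros, first form -/
theorem card_diag (h : orderOf χ = 4) {ψ : AddChar k ℂ} (hψ : ψ ≠ 1) {d : Fin 5 → ℕ}
    (hd : ∀ i, d i = 2 ∨ d i = 4) (a : Fin 5 → k) (ha : ∀ i, a i ≠ 0) :
    (Fintype.card k : ℂ) * (Nat.card (Cn d a) : ℂ) =
      (Fintype.card k : ℂ) ^ 5 + ((Fintype.card k : ℂ) - 1) *
        ∑ c ∈ (Fintype.piFinset fun i => Cs (d i)).filter (fun c => 4 ∣ ∑ i, c i),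
          χ⁻¹ (∏ i, a i ^ c i) * ∏ i, G χ ψ (c i) := by
  have e1 : (Fintype.card k : ℂ) * (Nat.card (Cn d a) : ℂ) =
      ∑ x : Fin 5 → k, ∑ t : k, ψ (t * ∑ i, a i * x i ^ d i) := by
    unfold Cn
    rw [Finset.sum_congr rfl fun x _ => sum_psi hψ (∑ i, a i * x i ^ d i), ← Finset.sum_filter,
      Finset.sum_const, nsmul_eq_mul, mul_comm, Nat.card_eq_fintype_card, Fintype.card_subtype]
  have e2 : ∀ t : k, ∑ x : Fin 5 → k, ψ (t * ∑ i, a i * x i ^ d i) =
      ∏ i, ∑ y : k, ψ (t * a i * y ^ d i) := by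
    intro t
    rw [Finset.prod_univ_sum, Fintype.piFinset_univ]
    refine Finset.sum_congr rfl fun x _ => ?_
    rw [Finset.mul_sum, psi_sum]
    refine Finset.prod_congr rfl fun i _ => ?_
    rw [mul_assoc]
  rw [e1, Finset.sum_comm, Finset.sum_congr rfl fun t _ => e2 t,
    ← Finset.add_sum_erase _ _ (Finset.mem_univ (0 : k))]
  congr 1
  · simp
  · have e3 : ∀ t ∈ (univ : Finset k).erase 0, ∏ i, ∑ y : k, ψ (t * a i * y ^ d i) =
        ∑ c ∈ Fintype.piFinset fun i => Cs (d i), (χ⁻¹ (∏ i, a i ^ c i) * ∏ i, G χ ψ (c i)) *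
          (χ⁻¹ t) ^ (∑ i, c i) := by
      intro t ht
      rw [Finset.prod_congr rfl fun i _ => exp_sum' h hψ (hd i)
        (mul_ne_zero (ne_of_mem_erase ht) (ha i)), Finset.prod_univ_sum]
      refine Finset.sum_congr rfl fun c _ => ?_
      rw [Finset.prod_mul_distrib, map_prod, ← Finset.prod_pow_eq_pow_sum]
      have e4 : ∏ i, (χ⁻¹ (t * a i)) ^ c i = (∏ i, χ⁻¹ (a i ^ c i)) * ∏ i, (χ⁻¹ t) ^ c i := by
        rw [← Finset.prod_mul_distrib]
        refine Finset.prod_congr rfl fun i _ => ?_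
        rw [map_mul, mul_pow, map_pow, mul_comm]
      rw [e4]
      ring
    rw [Finset.sum_congr rfl e3, Finset.sum_comm, Finset.sum_filter, Finset.mul_sum]
    refine Finset.sum_congr rfl fun c _ => ?_
    rw [← Finset.mul_sum, sum_pow4 h]
    split_ifs
    · ring
    · ring

/-- products over the values -/
lemma prod_vals {M : Type} [CommMonoid M] (f : ℕ → M) {c : Fin 5 → ℕ}
    (hc : ∀ i, 1 ≤ c i ∧ c i ≤ 3) :
    ∏ i, f (c i) = f 1 ^ (univ.filter fun i => c i = 1).card *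
      f 2 ^ (univ.filter fun i => c i = 2).card * f 3 ^ (univ.filter fun i => c i = 3).card := by
  classical
  have h1 : ∀ i, f (c i) = (if c i = 1 then f 1 else 1) * (if c i = 2 then f 2 else 1) *
      (if c i = 3 then f 3 else 1) := by
    intro i
    have := hc i
    have h2 : c i = 1 ∨ c i = 2 ∨ c i = 3 := by omega
    rcases h2 with h2 | h2 | h2 <;> rw [h2] <;> simp
  rw [Finset.prod_congr rfl fun i _ => h1 i, Finset.prod_mul_distrib, Finset.prod_mul_distrib,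
    ← Finset.prod_filter, ← Finset.prod_filter, ← Finset.prod_filter, Finset.prod_const,
    Finset.prod_const, Finset.prod_const]

lemma counts {c : Fin 5 → ℕ} (hc : ∀ i, 1 ≤ c i ∧ c i ≤ 3) :
    (univ.filter fun i => c i = 1).card + (univ.filter fun i => c i = 2).card +
      (univ.filter fun i => c i = 3).card = 5 ∧
    (univ.filter fun i => c i = 1).card + 2 * (univ.filter fun i => c i = 2).card +
      3 * (univ.filter fun i => c i = 3).card = ∑ i, c i := by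
  classical
  have h1 := prod_vals (M := Multiplicative ℕ) (fun _ => Multiplicative.ofAdd 1) hc
  have h2 := prod_vals (M := Multiplicative ℕ) (fun j => Multiplicative.ofAdd j) hc
  have e1 := congrArg Multiplicative.toAdd h1
  have e2 := congrArg Multiplicative.toAdd h2
  simp only [toAdd_prod, toAdd_mul, toAdd_pow, toAdd_ofAdd, Finset.sum_const, Finset.card_univ,
    Fintype.card_fin, smul_eq_mul, mul_one] at e1 e2
  constructor
  · omega
  · omega

variable {ψ : AddChar k ℂ}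

lemma G_inv (h : orderOf χ = 4) : χ⁻¹ = χ ^ 3 := by
  have h4 : χ ^ 4 = 1 := by rw [← h]; exact pow_orderOf_eq_one χ
  rw [inv_eq_iff_mul_eq_one, ← pow_succ', h4]

lemma chi_neg_sq (χ : MulChar k ℂ) : χ (-1) ^ 2 = 1 := by
  rw [← map_pow]
  simp

lemma chi2_inv (h : orderOf χ = 4) : (χ ^ 2)⁻¹ = χ ^ 2 := by
  have h4 : χ ^ 4 = 1 := by rw [← h]; exact pow_orderOf_eq_one χ
  rw [inv_eq_iff_mul_eq_one, ← pow_add, h4]

lemma gs_neg (φ : MulChar k ℂ) (ψ : AddChar k ℂ) : gaussSum φ ψ⁻¹ = φ (-1) * gaussSum φ ψ := by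
  have h4 := gaussSum_mulShift φ ψ (-1)
  have h5 : gaussSum φ (ψ.mulShift ((-1 : kˣ) : k)) = gaussSum φ ψ⁻¹ := by
    congr 1
    ext x
    simp [AddChar.mulShift_apply, AddChar.inv_apply]
  rw [h5] at h4
  have h6 : φ ((-1 : kˣ) : k) = φ (-1) := by simp
  rw [h6] at h4
  have h7 := chi_neg_sq φ
  rw [← h4]
  linear_combination (-gaussSum φ ψ⁻¹) * h7

lemma G13 (h : orderOf χ = 4) (hψ : ψ ≠ 1) :
    G χ ψ 1 * G χ ψ 3 = χ (-1) * Fintype.card k := by
  have h1 : χ ≠ 1 := by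
    rintro rfl
    simp at h
  have h2 := gaussSum_mul_gaussSum_eq_card h1 (AddChar.IsPrimitive.of_ne_one hψ)
  rw [gs_neg, G_inv h] at h2
  unfold G
  rw [pow_one]
  have h3 : (χ ^ 3) (-1) = χ (-1) := by
    rw [MulChar.pow_apply' _ three_ne_zero, pow_succ, chi_neg_sq, one_mul]
  rw [h3] at h2
  have h4 := chi_neg_sq χ
  rw [← h2]
  linear_combination (-(gaussSum χ ψ * gaussSum (χ ^ 3) ψ)) * h4

lemma G22 (h : orderOf χ = 4) (hψ : ψ ≠ 1) : G χ ψ 2 ^ 2 = Fintype.card k := by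
  have h1 : χ ^ 2 ≠ 1 := by
    intro h1
    have := orderOf_dvd_of_pow_eq_one h1
    rw [h] at this
    omega
  have h2 := gaussSum_mul_gaussSum_eq_card h1 (AddChar.IsPrimitive.of_ne_one hψ)
  rw [gs_neg, chi2_inv h] at h2
  have h3 : (χ ^ 2) (-1) = 1 := by
    rw [MulChar.pow_apply' _ two_ne_zero, chi_neg_sq]
  rw [h3, one_mul] at h2
  unfold G
  rw [pow_two, h2]

lemma G_conj1 (h : orderOf χ = 4) : (starRingEnd ℂ) (G χ ψ 1) = χ (-1) * G χ ψ 3 := by
  unfold G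
  rw [pow_one]
  have h1 := star_gaussSum_eq χ ψ
  rw [gs_neg, G_inv h] at h1
  have h3 : (χ ^ 3) (-1) = χ (-1) := by
    rw [MulChar.pow_apply' _ three_ne_zero, pow_succ, chi_neg_sq, one_mul]
  rw [h3] at h1
  exact h1

lemma G_conj2 (h : orderOf χ = 4) : (starRingEnd ℂ) (G χ ψ 2) = G χ ψ 2 := by
  unfold G
  have h1 := star_gaussSum_eq (χ ^ 2) ψ
  rw [gs_neg, chi2_inv h] at h1
  have h3 : (χ ^ 2) (-1) = 1 := by
    rw [MulChar.pow_apply' _ two_ne_zero, chi_neg_sq]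
  rw [h3, one_mul] at h1
  exact h1

/-- a Frobenius eigenvalue of the curve `y² = x³ + δ x` -/
noncomputable def bt (χ : MulChar k ℂ) (ψ : AddChar k ℂ) (δ : k) : ℂ :=
  -(χ⁻¹ δ * (G χ ψ 1 ^ 2 * G χ ψ 2) / Fintype.card k)

lemma conj_chi (χ : MulChar k ℂ) (x : k) : (starRingEnd ℂ) (χ x) = χ⁻¹ x := by
  rw [← MulChar.star_eq_inv, MulChar.star_apply]
  rfl

lemma bt_conj (h : orderOf χ = 4) (δ : k) :
    (starRingEnd ℂ) (bt χ ψ δ) = -(χ δ * (G χ ψ 3 ^ 2 * G χ ψ 2) / Fintype.card k) := by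
  unfold bt
  rw [map_neg, map_div₀, map_mul, map_mul, map_pow, conj_chi, inv_inv, G_conj1 h, G_conj2 h,
    map_natCast, mul_pow, chi_neg_sq, one_mul]

lemma bt_norm (h : orderOf χ = 4) (hψ : ψ ≠ 1) {δ : k} (hδ : δ ≠ 0) :
    bt χ ψ δ * (starRingEnd ℂ) (bt χ ψ δ) = Fintype.card k := by
  rw [bt_conj h]
  unfold bt
  have h1 : χ⁻¹ δ * χ δ = 1 := by
    rw [← MulChar.mul_apply, inv_mul_cancel, MulChar.one_apply (isUnit_iff_ne_zero.2 hδ)]
  have h2 := G13 h hψ
  have h3 := G22 h hψ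
  have h4 := chi_neg_sq χ
  have hq := q_ne (k := k)
  field_simp
  have h5 : (G χ ψ 1 * G χ ψ 3) ^ 2 = (Fintype.card k : ℂ) ^ 2 := by
    rw [h2, mul_pow, h4, one_mul]
  have h6 : (G χ ψ 1 * G χ ψ 3) ^ 2 * G χ ψ 2 ^ 2 = (Fintype.card k : ℂ) ^ 3 := by
    rw [h5, h3]; ring
  linear_combination (χ⁻¹ δ * χ δ) * h6 + (Fintype.card k : ℂ) ^ 3 * h1

lemma bt_four (h : orderOf χ = 4) (δ : k) {z : k} (hz : z ≠ 0) :
    bt χ ψ (δ * z ^ 4) = bt χ ψ δ := by
  have h4 : χ ^ 4 = 1 := by rw [← h]; exact pow_orderOf_eq_one χ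
  unfold bt
  rw [map_mul, map_pow, chi_pow_one (by rw [inv_pow, h4, inv_one]) hz, mul_one]

end

end Pool.Agent.T2h16.Q4
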