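import Mathlib
import Pool.Agent.T2h16.Q4.Cone

/-!
# The number of the zeros of `∑ a i x i ^ d i` in terms of the curves `y² = x³ + δ x`
-/

set_option autoImplicit false
set_option linter.unusedSectionVars false
set_option linter.style.haveILetI false

namespace Pool.Agent.T2h16.Q4

open Finset
open Pool.Agent.N883.C (sum_psi psi_sum chE chE_apply chE_algebraMap chE_mul chE_one chE_inv
  gauss_E sgn_aux sgn_sq q_ne chE_ne_one)

section
variable {k : Type} [Field k] [Fintype k] {χ : MulChar k ℂ} {ψ : AddChar k ℂ}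

lemma chi_neg_pow (χ : MulChar k ℂ) (n : ℕ) : χ⁻¹ ((-1) ^ n) = χ (-1) ^ n := by
  rw [map_pow]
  congr 1
  rw [MulChar.inv_apply']
  simp

lemma mem_Ty {d c : Fin 5 → ℕ} : c ∈ Ty d ↔ (∀ i, c i ∈ Cs (d i)) ∧ ∑ i, c i = 8 := by
  unfold Ty
  rw [Finset.mem_filter, Fintype.mem_piFinset]

lemma Cs_mem {d c : ℕ} (h : c ∈ Cs d) : 1 ≤ c ∧ c ≤ 3 := by
  unfold Cs at h
  exact Finset.mem_Icc.1 (Finset.mem_filter.1 h).1

lemma Cs_symm {d c : ℕ} (h : c ∈ Cs d) : 4 - c ∈ Cs d := by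
  have h1 := Cs_mem h
  unfold Cs at h ⊢
  rw [Finset.mem_filter, Finset.mem_Icc] at h ⊢
  refine ⟨by omega, ?_⟩
  obtain ⟨m, hm⟩ := h.2
  refine ⟨d - m, ?_⟩
  rw [Nat.mul_sub, Nat.mul_sub, hm, mul_comm d 4]

lemma cases8 {c : Fin 5 → ℕ} (hc : ∀ i, 1 ≤ c i ∧ c i ≤ 3) (h : ∑ i, c i = 8) :
    ((univ.filter fun i => c i = 1).card = 2 ∧ (univ.filter fun i => c i = 2).card = 3 ∧
      (univ.filter fun i => c i = 3).card = 0) ∨
    ((univ.filter fun i => c i = 1).card = 3 ∧ (univ.filter fun i => c i = 2).card = 1 ∧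
      (univ.filter fun i => c i = 3).card = 1) := by
  obtain ⟨h1, h2⟩ := counts hc
  rw [h] at h2
  omega

lemma term8 (h : orderOf χ = 4) (hψ : ψ ≠ 1) {c : Fin 5 → ℕ} (hc : ∀ i, 1 ≤ c i ∧ c i ≤ 3)
    (h8 : ∑ i, c i = 8) (a : Fin 5 → k) :
    χ⁻¹ (∏ i, a i ^ c i) * ∏ i, G χ ψ (c i) =
      -((Fintype.card k : ℂ) ^ 2 * bt χ ψ (tw a c)) := by
  have hq := q_ne (k := k)
  have h13 := G13 h hψ
  have h22 := G22 h hψ
  have hn := chi_neg_sq χ
  rw [prod_vals (G χ ψ) hc]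
  unfold bt tw
  rw [map_mul, chi_neg_pow]
  rcases cases8 hc h8 with ⟨e1, e2, e3⟩ | ⟨e1, e2, e3⟩
  · rw [e1, e2, e3]
    field_simp
    linear_combination (χ⁻¹ (∏ i, a i ^ c i) * G χ ψ 1 ^ 2 * G χ ψ 2) * h22
  · rw [e1, e2, e3]
    field_simp
    linear_combination (χ⁻¹ (∏ i, a i ^ c i) * G χ ψ 1 ^ 2 * G χ ψ 2) * h13

lemma term12 (h : orderOf χ = 4) (hψ : ψ ≠ 1) {c : Fin 5 → ℕ} (hc : ∀ i, 1 ≤ c i ∧ c i ≤ 3)
    (h8 : ∑ i, c i = 8) {a : Fin 5 → k} (ha : ∀ i, a i ≠ 0) :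
    χ⁻¹ (∏ i, a i ^ (4 - c i)) * ∏ i, G χ ψ (4 - c i) =
      -((Fintype.card k : ℂ) ^ 2 * (starRingEnd ℂ) (bt χ ψ (tw a c))) := by
  have hq := q_ne (k := k)
  have h13 := G13 h hψ
  have h22 := G22 h hψ
  have hn := chi_neg_sq χ
  have h4 : χ ^ 4 = 1 := by rw [← h]; exact pow_orderOf_eq_one χ
  have e0 : χ⁻¹ (∏ i, a i ^ (4 - c i)) = χ (∏ i, a i ^ c i) := by
    have h1 : (∏ i, a i ^ (4 - c i)) * ∏ i, a i ^ c i = (∏ i, a i) ^ 4 := by
      rw [← Finset.prod_mul_distrib, ← Finset.prod_pow]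
      refine Finset.prod_congr rfl fun i _ => ?_
      rw [← pow_add]
      congr 1
      have := (hc i).2
      omega
    have hP : (∏ i, a i) ≠ 0 := prod_ne_zero_iff.2 fun i _ => ha i
    have hP2 : (∏ i, a i ^ c i) ≠ 0 := prod_ne_zero_iff.2 fun i _ => pow_ne_zero _ (ha i)
    have h2 : χ⁻¹ (∏ i, a i ^ (4 - c i)) * χ⁻¹ (∏ i, a i ^ c i) = 1 := by
      rw [← map_mul, h1, map_pow]
      exact chi_pow_one (by rw [inv_pow, h4, inv_one]) hP
    have h3 : χ⁻¹ (∏ i, a i ^ c i) * χ (∏ i, a i ^ c i) = 1 := by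
      rw [← MulChar.mul_apply, inv_mul_cancel, MulChar.one_apply (isUnit_iff_ne_zero.2 hP2)]
    linear_combination χ (∏ i, a i ^ c i) * h2 - χ⁻¹ (∏ i, a i ^ (4 - c i)) * h3
  rw [e0, prod_vals (fun j => G χ ψ (4 - j)) hc, bt_conj h]
  unfold tw
  rw [map_mul]
  have e5 : χ ((-1) ^ (univ.filter fun i => c i = 3).card) =
      χ (-1) ^ (univ.filter fun i => c i = 3).card := map_pow _ _ _
  rw [e5]
  simp only [show 4 - 1 = 3 from rfl, show 4 - 2 = 2 from rfl, show 4 - 3 = 1 from rfl]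
  rcases cases8 hc h8 with ⟨e1, e2, e3⟩ | ⟨e1, e2, e3⟩
  · rw [e1, e2, e3]
    field_simp
    linear_combination (χ (∏ i, a i ^ c i) * G χ ψ 3 ^ 2 * G χ ψ 2) * h22
  · rw [e1, e2, e3]
    field_simp
    linear_combination (χ (∏ i, a i ^ c i) * G χ ψ 3 ^ 2 * G χ ψ 2) * h13

/-- **The number of the zeros.** -/
theorem card_cone (h : orderOf χ = 4) (hψ : ψ ≠ 1) {d : Fin 5 → ℕ}
    (hd : ∀ i, d i = 2 ∨ d i = 4) {a : Fin 5 → k} (ha : ∀ i, a i ≠ 0) :
    (Nat.card (Cn d a) : ℂ) = (Fintype.card k : ℂ) ^ 4 - ((Fintype.card k : ℂ) - 1) *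
      ∑ c ∈ Ty d, ((Fintype.card k : ℂ) * bt χ ψ (tw a c) +
        (Fintype.card k : ℂ) * (starRingEnd ℂ) (bt χ ψ (tw a c))) := by
  classical
  have h1 := card_diag h hψ hd a ha
  have hq := q_ne (k := k)
  have hval : ∀ c ∈ Fintype.piFinset fun i => Cs (d i), ∀ i, 1 ≤ c i ∧ c i ≤ 3 :=
    fun c hc i => Cs_mem (Fintype.mem_piFinset.1 hc i)
  have e1 : (Fintype.piFinset fun i => Cs (d i)).filter (fun c => 4 ∣ ∑ i, c i) =
      Ty d ∪ (Fintype.piFinset fun i => Cs (d i)).filter (fun c => ∑ i, c i = 12) := by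
    unfold Ty
    rw [← Finset.filter_or]
    refine Finset.filter_congr fun c hc => ?_
    obtain ⟨h2, h3⟩ := counts (hval c hc)
    rw [← h3]
    omega
  have e2 : ∑ c ∈ (Fintype.piFinset fun i => Cs (d i)).filter (fun c => ∑ i, c i = 12),
        χ⁻¹ (∏ i, a i ^ c i) * ∏ i, G χ ψ (c i) =
      ∑ c ∈ Ty d, χ⁻¹ (∏ i, a i ^ (4 - c i)) * ∏ i, G χ ψ (4 - c i) := by
    refine Finset.sum_nbij' (fun c i => 4 - c i) (fun c i => 4 - c i) ?_ ?_ ?_ ?_ ?_
    · intro c hc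
      rw [Finset.mem_filter] at hc
      rw [mem_Ty]
      refine ⟨fun i => Cs_symm (Fintype.mem_piFinset.1 hc.1 i), ?_⟩
      have hv := hval c hc.1
      have h2 := hc.2
      rw [Fin.sum_univ_five] at h2 ⊢
      have v0 := hv 0; have v1 := hv 1; have v2 := hv 2; have v3 := hv 3; have v4 := hv 4
      omega
    · intro c hc
      rw [mem_Ty] at hc
      rw [Finset.mem_filter, Fintype.mem_piFinset]
      refine ⟨fun i => Cs_symm (hc.1 i), ?_⟩
      have hv := fun i => Cs_mem (hc.1 i)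
      have h2 := hc.2
      rw [Fin.sum_univ_five] at h2 ⊢
      have v0 := hv 0; have v1 := hv 1; have v2 := hv 2; have v3 := hv 3; have v4 := hv 4
      omega
    · intro c hc
      rw [Finset.mem_filter] at hc
      funext i
      have := hval c hc.1 i
      show 4 - (4 - c i) = c i
      omega
    · intro c hc
      rw [mem_Ty] at hc
      funext i
      have := Cs_mem (hc.1 i)
      show 4 - (4 - c i) = c i
      omega
    · intro c hc
      rw [Finset.mem_filter] at hc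
      have e3 : ∀ i, 4 - (4 - c i) = c i := fun i => by
        have := hval c hc.1 i
        omega
      simp only [e3]
  rw [e1, Finset.sum_union (by
    unfold Ty
    rw [Finset.disjoint_filter]
    intro c _ h2 h3
    omega), e2, ← Finset.sum_add_distrib] at h1
  have e3 : ∀ c ∈ Ty d, χ⁻¹ (∏ i, a i ^ c i) * ∏ i, G χ ψ (c i) +
      χ⁻¹ (∏ i, a i ^ (4 - c i)) * ∏ i, G χ ψ (4 - c i) =
      -(Fintype.card k : ℂ) * ((Fintype.card k : ℂ) * bt χ ψ (tw a c) +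
        (Fintype.card k : ℂ) * (starRingEnd ℂ) (bt χ ψ (tw a c))) := by
    intro c hc
    rw [mem_Ty] at hc
    have hv := fun i => Cs_mem (hc.1 i)
    rw [term8 h hψ hv hc.2, term12 h hψ hv hc.2 ha]
    ring
  rw [Finset.sum_congr rfl e3, ← Finset.mul_sum] at h1
  apply mul_left_cancel₀ hq
  rw [h1]
  ring

open scoped Classical in
/-- the number of the affine points of `y² = x³ + δ x` -/
theorem card_aff (h : orderOf χ = 4) (hψ : ψ ≠ 1) {δ : k} (hδ : δ ≠ 0) :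
    (Nat.card {p : k × k // p.2 ^ 2 = p.1 ^ 3 + δ * p.1} : ℂ) =
      Fintype.card k - bt χ ψ δ - (starRingEnd ℂ) (bt χ ψ δ) := by
  have h4 : χ ^ 4 = 1 := by rw [← h]; exact pow_orderOf_eq_one χ
  have h2 : orderOf (χ ^ 2) = 2 := by
    rw [orderOf_pow' _ two_ne_zero, h]; rfl
  have e1 : Nat.card {p : k × k // p.2 ^ 2 = p.1 ^ 3 + δ * p.1} =
      ∑ x : k, Nat.card {y : k // y ^ 2 = x ^ 3 + δ * x} := by
    rw [← Nat.card_sigma]
    refine Nat.card_congr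
      { toFun := fun p => ⟨p.1.1, p.1.2, p.2⟩
        invFun := fun p => ⟨(p.1, p.2.1), p.2.2⟩
        left_inv := fun p => rfl
        right_inv := fun p => rfl }
  have e2 : ∀ x : k, (Nat.card {y : k // y ^ 2 = x ^ 3 + δ * x} : ℂ) =
      1 + (χ ^ 2) (x ^ 3 + δ * x) := by
    intro x
    rw [card_roots two_pos h2]
    have e3 : Finset.Ico 1 2 = {1} := by decide
    rw [e3, Finset.sum_singleton, pow_one]
  have hη : ∀ x : k, (χ ^ 2) x = χ x ^ 2 := fun x => MulChar.pow_apply' _ two_ne_zero x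
  -- the sum over the squares
  have e4 : ∀ x : k, (χ ^ 2) (x ^ 3 + δ * x) = χ (x ^ 2) * (χ ^ 2) (x ^ 2 + δ) := by
    intro x
    rw [show x ^ 3 + δ * x = x * (x ^ 2 + δ) by ring, map_mul (χ ^ 2), hη x, map_pow χ x 2]
  have e5 : ∑ x : k, (χ ^ 2) (x ^ 3 + δ * x) =
      ∑ u : k, (χ u + χ⁻¹ u) * (χ ^ 2) (u + δ) := by
    rw [Finset.sum_congr rfl fun x _ => e4 x,
      sum_roots two_pos h2 (fun u => χ u * (χ ^ 2) (u + δ))]
    refine Finset.sum_congr rfl fun u _ => ?_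
    have e3 : Finset.Ico 1 2 = {1} := by decide
    rw [e3, Finset.sum_singleton, pow_one, hη u]
    have e6 : χ⁻¹ u = χ u ^ 3 := by
      rw [G_inv h, MulChar.pow_apply' _ three_ne_zero]
    rw [e6]
    ring
  have e7 : ∀ φ : MulChar k ℂ, ∑ u : k, φ u * (χ ^ 2) (u + δ) =
      φ (-1) * φ δ * (χ δ) ^ 2 * jacobiSum φ (χ ^ 2) := by
    intro φ
    unfold jacobiSum
    rw [Finset.mul_sum]
    have e8 : Function.Bijective (fun y : k => -δ * y) :=
      mulLeft_bijective₀ _ (neg_ne_zero.2 hδ)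
    rw [← Function.Bijective.sum_comp e8]
    refine Finset.sum_congr rfl fun y _ => ?_
    rw [show -δ * y + δ = δ * (1 - y) by ring, show -δ * y = -1 * (δ * y) by ring, map_mul φ,
      map_mul φ, map_mul (χ ^ 2), hη δ]
    ring
  -- the Jacobi sums
  have hχ3 : χ * χ ^ 2 = χ⁻¹ := by rw [G_inv h, ← pow_succ']
  have hχ1 : χ⁻¹ * χ ^ 2 = χ := by rw [pow_two, ← mul_assoc, inv_mul_cancel, one_mul]
  have hne1 : χ ≠ 1 := by
    rintro rfl
    simp at h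
  have hne3 : χ⁻¹ ≠ 1 := by simpa using hne1
  have j1 : gaussSum χ⁻¹ ψ * jacobiSum χ (χ ^ 2) = gaussSum χ ψ * gaussSum (χ ^ 2) ψ := by
    have := jacobiSum_mul_nontrivial (χ := χ) (φ := χ ^ 2) (by rw [hχ3]; exact hne3) ψ
    rwa [hχ3] at this
  have j2 : gaussSum χ ψ * jacobiSum χ⁻¹ (χ ^ 2) = gaussSum χ⁻¹ ψ * gaussSum (χ ^ 2) ψ := by
    have := jacobiSum_mul_nontrivial (χ := χ⁻¹) (φ := χ ^ 2) (by rw [hχ1]; exact hne1) ψ
    rwa [hχ1] at this
  have g1 : gaussSum χ ψ = G χ ψ 1 := by unfold G; rw [pow_one]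
  have g2 : gaussSum (χ ^ 2) ψ = G χ ψ 2 := rfl
  have g3 : gaussSum χ⁻¹ ψ = G χ ψ 3 := by unfold G; rw [G_inv h]
  rw [g1, g2, g3] at j1 j2
  have h13 := G13 h hψ
  have hn := chi_neg_sq χ
  have hq := q_ne (k := k)
  have hG3 : G χ ψ 3 ≠ 0 := by
    intro h0
    rw [h0, mul_zero] at h13
    rcases mul_eq_zero.1 h13.symm with h1 | h1
    · rw [h1] at hn
      norm_num at hn
    · exact hq h1
  have hG1 : G χ ψ 1 ≠ 0 := by
    intro h0
    rw [h0, zero_mul] at h13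
    rcases mul_eq_zero.1 h13.symm with h1 | h1
    · rw [h1] at hn
      norm_num at hn
    · exact hq h1
  have J1 : χ (-1) * jacobiSum χ (χ ^ 2) = G χ ψ 1 ^ 2 * G χ ψ 2 / Fintype.card k := by
    rw [eq_div_iff hq]
    apply mul_left_cancel₀ hG3
    linear_combination (χ (-1) * (Fintype.card k : ℂ)) * j1 - (G χ ψ 1 * G χ ψ 2) * h13
  have J2 : χ (-1) * jacobiSum χ⁻¹ (χ ^ 2) = G χ ψ 3 ^ 2 * G χ ψ 2 / Fintype.card k := by
    rw [eq_div_iff hq]
    apply mul_left_cancel₀ hG1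
    linear_combination (χ (-1) * (Fintype.card k : ℂ)) * j2 - (G χ ψ 3 * G χ ψ 2) * h13
  have c1 : χ⁻¹ (-1) = χ (-1) := by
    rw [MulChar.inv_apply']
    simp
  have c2 : χ⁻¹ δ = χ δ ^ 3 := by rw [G_inv h, MulChar.pow_apply' _ three_ne_zero]
  have c3 : χ δ ^ 4 = 1 := chi_pow_one h4 hδ
  rw [e1]
  push_cast
  rw [Finset.sum_congr rfl fun x _ => e2 x, Finset.sum_add_distrib, e5]
  have e9 : ∀ u : k, (χ u + χ⁻¹ u) * (χ ^ 2) (u + δ) =
      χ u * (χ ^ 2) (u + δ) + χ⁻¹ u * (χ ^ 2) (u + δ) := fun u => by ring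
  rw [Finset.sum_congr rfl fun u _ => e9 u, Finset.sum_add_distrib, e7, e7, bt_conj h]
  unfold bt
  rw [c1, c2]
  simp only [Finset.sum_const, Finset.card_univ, nsmul_eq_mul, mul_one]
  linear_combination (χ δ ^ 3) * J1 + (χ δ ^ 5) * J2 +
    (χ δ * (G χ ψ 3 ^ 2 * G χ ψ 2 / Fintype.card k)) * c3

end

section ext
open Pool.Agent.Y145.KS (psi psi_apply psi_ne_one)

variable {k : Type} [Field k] [Fintype k] {E : Type} [Field E] [Finite E] [Algebra k E]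

lemma chE_pow (χ : MulChar k ℂ) (n : ℕ) : chE χ E ^ n = chE (χ ^ n) E := by
  induction n with
  | zero => rw [pow_zero, pow_zero, chE_one]
  | succ n ih => rw [pow_succ, pow_succ, chE_mul, ih]

lemma chE_ord {χ : MulChar k ℂ} (h : orderOf χ = 4) : orderOf (chE χ E) = 4 := by
  have h4 : χ ^ 4 = 1 := by rw [← h]; exact pow_orderOf_eq_one χ
  have h2 : χ ^ 2 ≠ 1 := by
    intro h1
    have := orderOf_dvd_of_pow_eq_one h1
    rw [h] at this
    omega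
  have : Fact (Nat.Prime 2) := ⟨Nat.prime_two⟩
  refine orderOf_eq_prime_pow (p := 2) (n := 1) ?_ ?_
  · rw [pow_one, chE_pow]
    exact chE_ne_one (E := E) h2
  · rw [show 2 ^ (1 + 1) = 4 from rfl, chE_pow, h4, chE_one]

lemma bt_E [Fintype E] (χ : MulChar k ℂ) {ψ : AddChar k ℂ} (hψ : ψ ≠ 1) (δ : k) :
    bt (chE χ E) (psi ψ E) (algebraMap k E δ) = bt χ ψ δ ^ Module.finrank k E := by
  haveI : Module.Finite k E := Module.Finite.of_finite
  have hr : 0 < Module.finrank k E := Module.finrank_pos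
  have hcard : (Fintype.card E : ℂ) = (Fintype.card k : ℂ) ^ Module.finrank k E := by
    rw [Module.card_eq_pow_finrank (K := k) (V := E)]
    push_cast
    rfl
  unfold bt G
  rw [chE_pow, chE_pow, gauss_E _ hψ, gauss_E _ hψ, chE_inv, chE_algebraMap, hcard]
  set r := Module.finrank k E with hrdef
  set g := gaussSum (χ ^ 1) ψ with hgdef
  set g' := gaussSum (χ ^ 2) ψ with hgdef'
  set d := χ⁻¹ δ with hddef
  set q := (Fintype.card k : ℂ) with hqdef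
  set s := ((-1 : ℂ)) ^ (r - 1) with hs
  have hs2 : s ^ 2 = 1 := sgn_sq r
  have hs1 : s * (-1) ^ r = -1 := sgn_aux hr
  have e0 : (-(d * (g ^ 2 * g') / q)) ^ r = (-1) ^ r * (d ^ r * ((g ^ r) ^ 2 * g' ^ r) / q ^ r) := by
    rw [neg_pow (d * (g ^ 2 * g') / q), div_pow, mul_pow, mul_pow, ← pow_mul, ← pow_mul,
      mul_comm 2 r]
  rw [e0]
  have e1 : -(d ^ r * ((s * g ^ r) ^ 2 * (s * g' ^ r)) / q ^ r) =
      -s ^ 3 * (d ^ r * ((g ^ r) ^ 2 * g' ^ r) / q ^ r) := by ring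
  have e2 : -s ^ 3 = (-1) ^ r := by
    linear_combination (-s) * hs2 + (-1) ^ r * hs2 - s * hs1
  rw [e1, e2]

theorem cone_E {χ : MulChar k ℂ} (h : orderOf χ = 4) {ψ : AddChar k ℂ} (hψ : ψ ≠ 1)
    {d : Fin 5 → ℕ} (hd : ∀ i, d i = 2 ∨ d i = 4) {a : Fin 5 → k} (ha : ∀ i, a i ≠ 0) :
    (Nat.card (Cn d fun i => algebraMap k E (a i)) : ℂ) =
      (Nat.card E : ℂ) ^ 4 - ((Nat.card E : ℂ) - 1) * ∑ c ∈ Ty d,
        (((Fintype.card k : ℂ) * bt χ ψ (tw a c)) ^ Module.finrank k E +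
        ((Fintype.card k : ℂ) * (starRingEnd ℂ) (bt χ ψ (tw a c))) ^ Module.finrank k E) := by
  haveI : Module.Finite k E := Module.Finite.of_finite
  let _ : Fintype E := Fintype.ofFinite E
  have ha' : ∀ i, algebraMap k E (a i) ≠ 0 := fun i => by
    rw [Ne, map_eq_zero_iff _ (algebraMap k E).injective]
    exact ha i
  have hcard : (Fintype.card E : ℂ) = (Fintype.card k : ℂ) ^ Module.finrank k E := by
    rw [Module.card_eq_pow_finrank (K := k) (V := E)]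
    push_cast
    rfl
  rw [card_cone (chE_ord (E := E) h) (psi_ne_one hψ E) hd ha',
    Nat.card_eq_fintype_card (α := E)]
  congr 2
  refine Finset.sum_congr rfl fun c _ => ?_
  rw [tw_map, bt_E χ hψ, hcard, map_pow, mul_pow, mul_pow]

/-- the properties of the eigenvalues -/
theorem exists_beta (k : Type) [Field k] [Fintype k] (h4 : 4 ∣ Fintype.card k - 1) :
    ∃ β : k → ℂ, (∀ δ z : k, z ≠ 0 → β (δ * z ^ 4) = β δ) ∧
      (∀ δ : k, δ ≠ 0 → β δ * (starRingEnd ℂ) (β δ) = Fintype.card k ∧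
        (Nat.card {p : k × k // p.2 ^ 2 = p.1 ^ 3 + δ * p.1} : ℂ) =
          Fintype.card k - β δ - (starRingEnd ℂ) (β δ)) ∧
      ∀ d : Fin 5 → ℕ, (∀ i, d i = 2 ∨ d i = 4) → ∀ a : Fin 5 → k, (∀ i, a i ≠ 0) →
        ∀ (E : Type) [Field E] [Finite E] [Algebra k E],
          (Nat.card (Cn d fun i => algebraMap k E (a i)) : ℂ) =
            (Nat.card E : ℂ) ^ 4 - ((Nat.card E : ℂ) - 1) * ∑ c ∈ Ty d,
              (((Fintype.card k : ℂ) * β (tw a c)) ^ Module.finrank k E +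
              ((Fintype.card k : ℂ) * (starRingEnd ℂ) (β (tw a c))) ^ Module.finrank k E) := by
  obtain ⟨χ, h⟩ := exists_quartic (k := k) h4
  obtain ⟨ψ, hψ⟩ : ∃ ψ : AddChar k ℂ, ψ ≠ 1 := by
    obtain ⟨ψ, hψ⟩ := (AddChar.exists_apply_ne_zero (a := (1 : k))).2 one_ne_zero
    refine ⟨ψ, ?_⟩
    rintro rfl
    simp at hψ
  exact ⟨bt χ ψ, fun δ z hz => bt_four h δ hz, fun δ hδ => ⟨bt_norm h hψ hδ,
    card_aff h hψ hδ⟩, fun d hd a ha E _ _ _ => cone_E h hψ hd ha⟩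

end ext

end Pool.Agent.T2h16.Q4
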