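import Mathlib
import Pool.Agent.Y682.Glob

/-!
# Local images for the curves `y² = x³ + δ x`
-/

set_option autoImplicit false
set_option linter.unusedSectionVars false

namespace Pool.Agent.T2h16.Q4

open Pool.Agent.Y682 (S1)

variable {L : Type} [Field L] (w : Valuation L (WithZero (Multiplicative ℤ)))

lemma sq_gt {δ m : L} (hens : ∀ t : L, w t < 1 → ∃ y : L, y ^ 2 = 1 + t) (hm : m ≠ 0)
    (h1 : w δ < w m ^ 2) {y : L} (hy : y ^ 2 = m * (m ^ 2 + δ)) : ∃ c : L, c ≠ 0 ∧ m = c ^ 2 := by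
  have hwm : w m ≠ 0 := (Valuation.ne_zero_iff _).2 hm
  have ht : w (δ / m ^ 2) < 1 := by
    rw [map_div₀, map_pow, div_lt_iff₀ (pow_pos (zero_lt_iff.2 hwm) 2), one_mul]
    exact h1
  obtain ⟨r, hr⟩ := hens _ ht
  have hr0 : r ≠ 0 := by
    rintro rfl
    have h2 : δ / m ^ 2 = -1 := by linear_combination -hr
    rw [h2, Valuation.map_neg, map_one] at ht
    exact lt_irrefl _ ht
  have h2 : (m * r) ^ 2 = m ^ 2 + δ := by
    rw [mul_pow, hr]
    field_simp
  rw [← h2] at hy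
  have hmr : m * r ≠ 0 := mul_ne_zero hm hr0
  have hy0 : y ≠ 0 := by
    rintro rfl
    rw [zero_pow two_ne_zero] at hy
    exact mul_ne_zero hm (pow_ne_zero 2 hmr) hy.symm
  refine ⟨y / (m * r), div_ne_zero hy0 hmr, ?_⟩
  rw [div_pow, hy]
  field_simp

lemma sq_lt {δ m : L} (hens : ∀ t : L, w t < 1 → ∃ y : L, y ^ 2 = 1 + t) (hδ : δ ≠ 0) (hm : m ≠ 0)
    (h1 : w m ^ 2 < w δ) {y : L} (hy : y ^ 2 = m * (m ^ 2 + δ)) :
    ∃ c : L, c ≠ 0 ∧ m = δ * c ^ 2 := by
  have hwd : w δ ≠ 0 := (Valuation.ne_zero_iff _).2 hδ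
  have ht : w (m ^ 2 / δ) < 1 := by
    rw [map_div₀, map_pow, div_lt_iff₀ (zero_lt_iff.2 hwd), one_mul]
    exact h1
  obtain ⟨r, hr⟩ := hens _ ht
  have hr0 : r ≠ 0 := by
    rintro rfl
    have h2 : m ^ 2 / δ = -1 := by linear_combination -hr
    rw [h2, Valuation.map_neg, map_one] at ht
    exact lt_irrefl _ ht
  have h2 : δ * r ^ 2 = m ^ 2 + δ := by
    rw [hr]
    field_simp
    ring
  rw [← h2] at hy
  have hDr : δ * r ≠ 0 := mul_ne_zero hδ hr0
  have hy0 : y ≠ 0 := by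
    rintro rfl
    rw [zero_pow two_ne_zero] at hy
    exact mul_ne_zero hm (mul_ne_zero hδ (pow_ne_zero 2 hr0)) hy.symm
  refine ⟨y / (δ * r), div_ne_zero hy0 hDr, ?_⟩
  rw [div_pow, hy]
  field_simp

/-- odd valuation -/
lemma cls_odd {δ m : L} (hens : ∀ t : L, w t < 1 → ∃ y : L, y ^ 2 = 1 + t) (hδ : δ ≠ 0)
    (hodd : ∀ g, w δ ≠ g ^ 2) (h : S1 0 δ m) : ∃ c : L, c ≠ 0 ∧ (m = c ^ 2 ∨ m = δ * c ^ 2) := by
  rcases h with h | h | ⟨hm, y, hy⟩
  · exact ⟨1, one_ne_zero, Or.inl (by rw [h, one_pow])⟩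
  · exact ⟨1, one_ne_zero, Or.inr (by rw [h, one_pow, mul_one])⟩
  · rw [zero_mul, add_zero] at hy
    rcases lt_trichotomy (w δ) (w m ^ 2) with h1 | h1 | h1
    · obtain ⟨c, hc, h2⟩ := sq_gt w hens hm h1 hy
      exact ⟨c, hc, Or.inl h2⟩
    · exact absurd h1 (hodd _)
    · obtain ⟨c, hc, h2⟩ := sq_lt w hens hδ hm h1 hy
      exact ⟨c, hc, Or.inr h2⟩

/-- `δ = - s ^ 2` and the valuation of `s` is odd -/
lemma cls_sq {s m i : L} (hi : i ^ 2 = -1) (hens : ∀ t : L, w t < 1 → ∃ y : L, y ^ 2 = 1 + t)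
    (hs : s ≠ 0) (hodd : ∀ g, w s ≠ g ^ 2) (h : S1 0 (-s ^ 2) m) :
    ∃ c : L, c ≠ 0 ∧ (m = c ^ 2 ∨ m = s * c ^ 2) := by
  have hi0 : i ≠ 0 := by
    rintro rfl
    rw [zero_pow two_ne_zero] at hi
    have : (1 : L) = 0 := by linear_combination hi
    exact one_ne_zero this
  have hδ : -s ^ 2 ≠ 0 := neg_ne_zero.2 (pow_ne_zero 2 hs)
  have hws : w s ≠ 0 := (Valuation.ne_zero_iff _).2 hs
  rcases h with h | h | ⟨hm, y, hy⟩
  · exact ⟨1, one_ne_zero, Or.inl (by rw [h, one_pow])⟩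
  · exact ⟨i * s, mul_ne_zero hi0 hs, Or.inl (by rw [h, mul_pow, hi]; ring)⟩
  · rw [zero_mul, add_zero] at hy
    rcases lt_trichotomy (w (-s ^ 2)) (w m ^ 2) with h1 | h1 | h1
    · obtain ⟨c, hc, h2⟩ := sq_gt w hens hm h1 hy
      exact ⟨c, hc, Or.inl h2⟩
    · rw [Valuation.map_neg, map_pow] at h1
      have h2 : w s = w m := (pow_left_inj₀ zero_le zero_le two_ne_zero).1 h1
      obtain ⟨u, hu⟩ : ∃ u, u = m / s := ⟨_, rfl⟩
      have hmu : m = s * u := by rw [hu]; field_simp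
      have hwu : w u = 1 := by
        rw [hu, map_div₀, ← h2, div_self hws]
      have hmain : ∃ r : L, r ≠ 0 ∧ u = r ^ 2 := by
        have key : w (u - 1) < 1 ∨ w (u + 1) < 1 := by
          by_contra hcon
          push Not at hcon
          have h3 : w (u - 1) = 1 := le_antisymm ((Valuation.map_sub _ _ _).trans
            (max_le hwu.le (by rw [map_one]))) hcon.1
          have h4 : w (u + 1) = 1 := le_antisymm ((Valuation.map_add _ _ _).trans
            (max_le hwu.le (by rw [map_one]))) hcon.2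
          have h5 : y ^ 2 = s ^ 3 * (u * ((u - 1) * (u + 1))) := by
            rw [hy, hmu]; ring
          have h6 := congrArg w h5
          rw [map_mul, map_mul, map_mul, h3, h4, hwu, one_mul, one_mul, mul_one, map_pow, map_pow] at h6
          apply hodd (w y / w s)
          rw [div_pow, h6]
          field_simp
        rcases key with h3 | h3
        · obtain ⟨r, hr⟩ := hens _ h3
          have h4 : u = r ^ 2 := by rw [hr]; ring
          refine ⟨r, ?_, h4⟩
          rintro rfl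
          rw [h4, zero_pow two_ne_zero, map_zero] at hwu
          exact zero_ne_one hwu
        · obtain ⟨r, hr⟩ := hens (-(u + 1)) (by rwa [Valuation.map_neg])
          have h4 : u = (i * r) ^ 2 := by rw [mul_pow, hr, hi]; ring
          refine ⟨i * r, ?_, h4⟩
          intro h5
          rw [h4, h5, zero_pow two_ne_zero, map_zero] at hwu
          exact zero_ne_one hwu
      obtain ⟨r, hr0, hr⟩ := hmain
      exact ⟨r, hr0, Or.inr (by rw [hmu, hr])⟩
    · obtain ⟨c, hc, h2⟩ := sq_lt w hens hδ hm h1 hy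
      exact ⟨i * s * c, mul_ne_zero (mul_ne_zero hi0 hs) hc, Or.inl (by
        rw [h2, mul_pow, mul_pow, hi]; ring)⟩

/-- if the valuation of `δ` is divisible by four then that of `m` is even -/
lemma even4 {δ m : L} (hδ : δ ≠ 0) (h4 : ∃ g, w δ = g ^ 4) (h : S1 0 δ m) : ∃ g, w m = g ^ 2 := by
  obtain ⟨g0, hg0⟩ := h4
  have hwd : w δ ≠ 0 := (Valuation.ne_zero_iff _).2 hδ
  have hg : g0 ≠ 0 := by
    rintro rfl
    rw [zero_pow (by norm_num)] at hg0
    exact hwd hg0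
  rcases h with h | h | ⟨hm, y, hy⟩
  · exact ⟨1, by rw [h, map_one, one_pow]⟩
  · exact ⟨g0 ^ 2, by rw [h, hg0, ← pow_mul]⟩
  · have hwm : w m ≠ 0 := (Valuation.ne_zero_iff _).2 hm
    rw [zero_mul, add_zero] at hy
    have e := congrArg w hy
    rw [map_pow, map_mul] at e
    rcases lt_trichotomy (w δ) (w m ^ 2) with h1 | h1 | h1
    · refine ⟨w y / w m, ?_⟩
      have h2 : w (m ^ 2 + δ) = w m ^ 2 := by
        rw [Valuation.map_add_eq_of_lt_left, map_pow]
        rw [map_pow]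
        exact h1
      rw [h2] at e
      rw [div_pow, e]
      field_simp
    · refine ⟨g0, ?_⟩
      rw [hg0] at h1
      have h2 : (g0 ^ 2) ^ 2 = w m ^ 2 := by rw [← h1, ← pow_mul]
      exact ((pow_left_inj₀ zero_le zero_le two_ne_zero).1 h2).symm
    · refine ⟨w y / g0 ^ 2, ?_⟩
      have h2 : w (m ^ 2 + δ) = g0 ^ 4 := by
        rw [Valuation.map_add_eq_of_lt_right, hg0]
        rw [map_pow]
        exact h1
      rw [h2] at e
      rw [div_pow, e]
      field_simp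

end Pool.Agent.T2h16.Q4
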