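import Mathlib
import Pool.Agent.Y715.Z.Sel
import Pool.Agent.Y667.BKP.Main
import Pool.Agent.T2h16.Q4.Cls

/-!
# The Selmer groups of the quartic twists
-/

set_option autoImplicit false
set_option linter.unusedSectionVars false

open NumberField IsDedekindDomain

namespace Pool.Agent.T2h16.Q4

open Pool.Agent.Y682 (S1 S2 vv vv_coe IsT Zc Zc_card Zc_lower LL1 LL2 Sq quot_eq)
open Pool.Agent.Y699
open Pool.Agent.Y715.Z
open H385 (ZI RQ im1 nrm)
open Pool.Agent.W164.RC (two2 prim_iff_dvd unit_norm unit_cases)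

section

variable {K : Type} [Field K] [NumberField K] (e : ZI ≃+* 𝓞 K) {z : ZI} (hz : Prime z)

/-- evenness -/
lemma not_dvd_of_even {d : ZI} (hd : Squarefree d) {b w : K} (hw : w ≠ 0)
    (hb : b = em0 e d * w ^ 2) {δ : K} (hδ : δ ≠ 0)
    (h4 : ∃ g, (plc e hz).valuation K δ = g ^ 4)
    (h : ∃ y m : (plc e hz).adicCompletion K, y ≠ 0 ∧ ph e hz b * y ^ 2 = m ∧
      S1 0 (ph e hz δ) m) : ¬ z ∣ d := by
  intro hzd
  obtain ⟨y, m, hy, hym, hm⟩ := h
  have hwD : ∃ g, vv (plc e hz) (ph e hz δ) = g ^ 4 := by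
    obtain ⟨g, hg⟩ := h4
    exact ⟨g, by rw [vv_coe, hg]⟩
  obtain ⟨g, hg⟩ := even4 _ ((map_ne_zero _).2 hδ) hwD hm
  have hvy : vv (plc e hz) y ≠ 0 := (Valuation.ne_zero_iff _).2 hy
  have hvw : (plc e hz).valuation K w ≠ 0 := (Valuation.ne_zero_iff _).2 hw
  rw [← hym, map_mul, vv_coe, map_pow, hb, map_mul, val_sqf e hz hd hzd, map_pow] at hg
  apply exp_sq (g := g / ((plc e hz).valuation K w * vv (plc e hz) y))
  rw [div_pow, ← hg, mul_pow]
  field_simp

/-- the local condition at a prime dividing `D` -/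
lemma loc_bad' (hP : PP z) {D d d' D' : ZI} (hDsq : Squarefree D) (hzD : z ∣ D)
    {b w : K} (hw : w ≠ 0) (hb : b = em0 e d * w ^ 2) {y m : (plc e hz).adicCompletion K}
    (hy : y ≠ 0) (hym : ph e hz b * y ^ 2 = m)
    (hcl : ∃ c : (plc e hz).adicCompletion K, c ≠ 0 ∧ (m = c ^ 2 ∨ m = ph e hz (em0 e D) * c ^ 2)) :
    (¬ z ∣ d → qr z d = 1) ∧ (Squarefree d → z ∣ d → d * d' = D * D' ^ 2 → ¬ z ∣ d' → qr z d' = 1) := by
  have hD0 : D ≠ 0 := hDsq.ne_zero
  have hwD : vv (plc e hz) (ph e hz (em0 e D)) = WithZero.exp (-1 : ℤ) := by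
    rw [vv_coe, val_sqf e hz hDsq hzD]
  have hphD : ph e hz (em0 e D) ≠ 0 := (map_ne_zero _).2 (em0_ne e hD0)
  obtain ⟨c, hc, hmc⟩ := hcl
  have hpw : ph e hz w ≠ 0 := (map_ne_zero _).2 hw
  have hvy : vv (plc e hz) y ≠ 0 := (Valuation.ne_zero_iff _).2 hy
  have hvc : vv (plc e hz) c ≠ 0 := (Valuation.ne_zero_iff _).2 hc
  have hvw : vv (plc e hz) (ph e hz w) ≠ 0 := (Valuation.ne_zero_iff _).2 hpw
  have hm2 : ph e hz (em0 e d) * (ph e hz w * y) ^ 2 = m := by
    rw [← hym, hb, map_mul, map_pow]; ring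
  constructor
  · intro hzd
    rcases hmc with h1 | h1
    · apply qr_of_sqrt e hz hP hzd (x := c / (ph e hz w * y))
      rw [div_pow, ← h1, ← hm2]
      field_simp
    · exfalso
      have h3 := congrArg (vv (plc e hz)) (hm2.trans h1)
      rw [map_mul, map_mul, vv_coe, val_one e hz hzd, one_mul, map_pow, map_pow, map_mul, hwD] at h3
      apply exp_sq (g := vv (plc e hz) (ph e hz w) * vv (plc e hz) y / vv (plc e hz) c)
      rw [div_pow, h3]
      field_simp
  · intro hd hzd hdd hzd'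
    rcases hmc with h1 | h1
    · exfalso
      have h3 := congrArg (vv (plc e hz)) (hm2.trans h1)
      rw [map_mul, vv_coe, val_sqf e hz hd hzd, map_pow, map_pow, map_mul] at h3
      apply exp_sq (g := vv (plc e hz) c / (vv (plc e hz) (ph e hz w) * vv (plc e hz) y))
      rw [div_pow, ← h3]
      field_simp
    · have hpd : ph e hz (em0 e d) ≠ 0 := (map_ne_zero _).2 (em0_ne e hd.ne_zero)
      apply qr_of_sqrt e hz hP hzd'
        (x := ph e hz (em0 e D') * (ph e hz w * y) / c)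
      have h4 : ph e hz (em0 e d) * ph e hz (em0 e d') =
          ph e hz (em0 e D) * ph e hz (em0 e D') ^ 2 := by
        rw [← map_mul, ← map_mul, hdd, map_mul, map_mul, map_pow, map_pow]
      have h5 : ph e hz (em0 e d) * (ph e hz w * y) ^ 2 = ph e hz (em0 e D) * c ^ 2 := hm2.trans h1
      rw [div_pow, mul_pow]
      rw [div_eq_iff (pow_ne_zero 2 hc)]
      apply mul_left_cancel₀ (mul_ne_zero hphD hpd)
      linear_combination (ph e hz (em0 e D) * ph e hz (em0 e D') ^ 2) * h5 -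
        (ph e hz (em0 e D) * c ^ 2) * h4

end

section

variable {K : Type} [Field K] [NumberField K] (e : ZI ≃+* 𝓞 K)

/-- the local conditions at the finite places -/
def LF (δ b : K) : Prop :=
  ∀ v : HeightOneSpectrum (𝓞 K), ∃ y m : v.adicCompletion K, y ≠ 0 ∧
      algebraMap K (v.adicCompletion K) b * y ^ 2 = m ∧
        S1 0 (algebraMap K (v.adicCompletion K) δ) m

/-- the twists: outside of `D` the valuation is divisible by four, and at the primes dividing `D` the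
local image is generated by `D` -/
structure TypD (D : ZI) (δ : K) : Prop where
  ne : δ ≠ 0
  out : ∀ (z : ZI) (hz : Prime z), ¬ z ∣ D → ∃ g, (plc e hz).valuation K δ = g ^ 4
  cl : ∀ (z : ZI) (hz : Prime z), PP z → z ∣ D → ∀ m : (plc e hz).adicCompletion K,
    S1 0 (ph e hz δ) m → ∃ c : (plc e hz).adicCompletion K, c ≠ 0 ∧
      (m = c ^ 2 ∨ m = ph e hz (em0 e D) * c ^ 2)

/-- **the Selmer group** -/
theorem selD {D : ZI} (hg : Good D) {δ : K} (hδ : TypD e D δ) {b : K} (hb : b ≠ 0)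
    (h : LF δ b) : ∃ c : K, b = c ^ 2 ∨ b = em0 e D * c ^ 2 := by
  classical
  obtain ⟨d, w, hd, hw, hbd⟩ := exists_sqf e hb
  have hD0 := hg.ps.ne
  have hDsq := hg.ps.sqf
  have hp := fam_PF hD0
  -- the primes of `d`
  have hprime : ∀ ρ : ZI, Prime ρ → ρ ∣ d → ρ ∣ D := by
    intro ρ hρ hρd
    by_contra hρD
    exact not_dvd_of_even e hρ hd hw hbd hδ.ne (hδ.out ρ hρ hρD) (h (plc e hρ)) hρd
  set V : Finset {π : ZI // π ∈ PD D} := Finset.univ with hV
  set S := V.filter (fun i => fam D i ∣ d) with hS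
  have hSV : S ⊆ V := Finset.filter_subset _ _
  have hDV : DD (fam D) V = D := hg.ps.DD
  have hSd : DD (fam D) S ∣ d := by
    unfold DD
    refine Finset.prod_dvd_of_coprime ?_ ?_
    · intro i _ j _ hij
      exact (hp.pp i).cop (hp.pp j) fun h => hij (hp.inj h)
    · intro i hi
      exact (Finset.mem_filter.1 hi).2
  obtain ⟨u, hu⟩ := hSd
  have huu : IsUnit u := by
    by_contra hnu
    have hu0 : u ≠ 0 := by
      rintro rfl
      exact hd.ne_zero (by rw [hu, mul_zero])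
    obtain ⟨ρ, hρ, hρu⟩ := WfDvdMonoid.exists_irreducible_factor hnu hu0
    have hρ' : Prime ρ := irreducible_iff_prime.1 hρ
    have h1 : ρ ∣ d := by rw [hu]; exact hρu.mul_left _
    have h2 := hprime ρ hρ' h1
    rw [← hDV] at h2
    unfold DD at h2
    obtain ⟨i, hi, hρi⟩ := (hρ'.dvd_finsetProd_iff _).1 h2
    have h3 : fam D i ∣ ρ := by
      obtain ⟨c, hc⟩ := hρi
      rcases (hp.pp i).pr.irreducible.isUnit_or_isUnit hc with h4 | h4
      · exact absurd h4 hρ'.not_isUnit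
      · obtain ⟨c', hc'⟩ := h4.exists_right_inv
        exact ⟨c', by rw [hc, mul_assoc, hc', mul_one]⟩
    have h4 : i ∈ S := Finset.mem_filter.2 ⟨hi, h3.trans h1⟩
    have h5 : fam D i * fam D i ∣ d := by
      rw [hu]
      refine mul_dvd_mul ?_ (h3.trans hρu)
      unfold DD
      exact Finset.dvd_prod_of_mem _ h4
    exact (hp.pp i).pr.not_isUnit (hd _ h5)
  have hun : u.norm = 1 := by
    obtain ⟨e', rfl⟩ := huu
    exact unit_norm e'
  have hDS : DD (fam D) V = DD (fam D) S * DD (fam D) (V \ S) := by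
    unfold DD
    rw [mul_comm]
    exact (Finset.prod_sdiff hSV).symm
  have hnd : ∀ (T : Finset {π : ZI // π ∈ PD D}) (j : {π : ZI // π ∈ PD D}), j ∉ T →
      ¬ fam D j ∣ DD (fam D) T := by
    intro T j hT h
    unfold DD at h
    obtain ⟨i, hi, hji⟩ := ((hp.pp j).pr.dvd_finsetProd_iff _).1 h
    exact not_dvd_of_ne hp (fun h' => hT (by rw [h']; exact hi)) hji
  -- the local conditions
  have hloc : ∀ j ∈ V, (j ∉ S → qr (fam D j) u * qr (fam D j) (DD (fam D) S) = 1) ∧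
      (j ∈ S → qr (fam D j) u * qr (fam D j) (DD (fam D) (V \ S)) = 1) := by
    intro j hj
    have hP := hp.pp j
    have hjD : fam D j ∣ D := (Finset.dvd_prod_of_mem (fam D) hj).trans (dvd_of_eq hDV)
    obtain ⟨y, m, hy, hym, hm⟩ := h (plc e hP.pr)
    obtain ⟨h1, h2⟩ := loc_bad' (d := d) (d' := u * DD (fam D) (V \ S)) (D' := u) e hP.pr hP
      hDsq hjD hw hbd hy hym (hδ.cl _ hP.pr hP hjD m hm)
    constructor
    · intro hjS
      have h3 := h1 (fun h' => hjS (Finset.mem_filter.2 ⟨hj, h'⟩))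
      rw [hu, qr_mul hP] at h3
      rw [mul_comm]
      exact h3
    · intro hjS
      have h3 := h2 hd (Finset.mem_filter.1 hjS).2 (by
        have h5 : D = DD (fam D) S * DD (fam D) (V \ S) := hDV.symm.trans hDS
        have h6 : d * (u * DD (fam D) (V \ S)) =
            (DD (fam D) S * DD (fam D) (V \ S)) * u ^ 2 := by rw [hu]; ring
        exact h6.trans (congrArg (fun t => t * u ^ 2) h5.symm)) (by
        intro h'
        rcases hP.pr.dvd_or_dvd h' with h4 | h4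
        · exact not_dvd_unit hP hun h4
        · exact hnd _ _ (fun h5 => (Finset.mem_sdiff.1 h5).2 hjS) h4)
      rw [qr_mul hP] at h3
      exact h3
  obtain ⟨⟨u0, hu0⟩, hSS⟩ := ends hp (wt_sum hg.ps hg.five) (ker_of_good hg) hun hSV hloc
  refine ⟨em0 e u0 * w, ?_⟩
  rcases hSS with h1 | h1
  · left
    have h2 : DD (fam D) S = 1 := by rw [h1]; unfold DD; rw [Finset.prod_empty]
    rw [hbd, hu, h2, one_mul, hu0, map_pow]
    ring
  · right
    rw [hbd, hu, h1, hDV, hu0, map_mul, map_pow]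
    ring

/-- the Selmer group for the units -/
theorem selU {δ : K} (hδ : δ ≠ 0)
    (hout : ∀ (z : ZI) (hz : Prime z), ∃ g, (plc e hz).valuation K δ = g ^ 4) {b : K} (hb : b ≠ 0)
    (h : LF δ b) : ∃ c : K, b = c ^ 2 ∨ b = em0 e im1 * c ^ 2 := by
  obtain ⟨d, w, hd, hw, hbd⟩ := exists_sqf e hb
  have hdu : IsUnit d := by
    by_contra hnu
    obtain ⟨ρ, hρ, hρu⟩ := WfDvdMonoid.exists_irreducible_factor hnu hd.ne_zero
    have hρ' : Prime ρ := irreducible_iff_prime.1 hρ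
    exact not_dvd_of_even e hρ' hd hw hbd hδ (hout ρ hρ') (h (plc e hρ')) hρu
  have hun : d.norm = 1 := by
    obtain ⟨e', rfl⟩ := hdu
    exact unit_norm e'
  have hi : (em0 e im1 : K) ^ 2 = -1 := Pool.Agent.Y715.Z.im1_sq e
  rcases unit_cases hun with h1 | h1 | h1 | h1
  · exact ⟨w, Or.inl (by rw [hbd, h1, map_one, one_mul])⟩
  · exact ⟨w, Or.inr (by rw [hbd, h1])⟩
  · refine ⟨em0 e im1 * w, Or.inl ?_⟩
    rw [hbd, h1, map_pow]
    ring
  · refine ⟨em0 e im1 * w, Or.inr ?_⟩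
    rw [hbd, h1, map_pow]
    ring

include e in
/-- **the descent** -/
theorem both {δ A : K} (hδ : δ ≠ 0) (hA : A ≠ 0)
    (H : ∀ b : K, b ≠ 0 → LF δ b → ∃ c : K, b = c ^ 2 ∨ b = A * c ^ 2)
    {W : WeierstrassCurve K} (hT : IsT W 0 δ) :
    Finite W.toAffine.Point ∧
      ∀ (n : ℕ) (x : Pool.Agent.TH841.NF.D.Sha W), 2 ^ n • x = 0 → x = 0 := by
  classical
  let U : Set (Kˣ ⧸ Sq K) := {(1 : Kˣ ⧸ Sq K), ((Units.mk0 A hA : Kˣ) : Kˣ ⧸ Sq K)}
  have hUf : U.Finite := Set.toFinite U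
  have hfin : Finite U := hUf.to_subtype
  have hU2 : Nat.card U ≤ 2 := by
    have h1 : U.ncard ≤ 2 := by
      refine (Set.ncard_insert_le _ _).trans ?_
      rw [Set.ncard_singleton]
    exact h1
  have key : ∀ b : Kˣ, (∃ c : K, (b : K) = c ^ 2 ∨ (b : K) = A * c ^ 2) →
      (b : Kˣ ⧸ Sq K) ∈ U := by
    rintro b ⟨c, hc⟩
    have hc0 : c ≠ 0 := by
      rintro rfl
      rcases hc with hc | hc
      · rw [zero_pow two_ne_zero] at hc; exact b.ne_zero hc
      · rw [zero_pow two_ne_zero, mul_zero] at hc; exact b.ne_zero hc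
    rcases hc with hc | hc
    · left
      have h1 : (1 : Kˣ ⧸ Sq K) = ((1 : Kˣ) : Kˣ ⧸ Sq K) := rfl
      rw [h1, eq_comm, quot_eq]
      refine ⟨Units.mk0 c hc0, Units.ext ?_⟩
      rw [Units.val_mul, Units.val_one, one_mul, Units.val_pow_eq_pow_val, Units.val_mk0, hc]
    · right
      show (b : Kˣ ⧸ Sq K) = ((Units.mk0 A hA : Kˣ) : Kˣ ⧸ Sq K)
      rw [eq_comm, quot_eq]
      refine ⟨Units.mk0 c hc0, Units.ext ?_⟩
      rw [Units.val_mul, Units.val_pow_eq_pow_val, Units.val_mk0, Units.val_mk0, hc]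
  have H1 : ∀ b : Kˣ, LL1 (0 : K) δ (b : K) → (b : Kˣ ⧸ Sq K) ∈ U := by
    intro b hb
    apply key
    apply H _ b.ne_zero
    intro v
    have := hb.1 v
    rwa [map_zero] at this
  have H2 : ∀ b : Kˣ, LL2 (0 : K) δ (b : K) → (b : Kˣ ⧸ Sq K) ∈ U := by
    intro b hb
    apply key
    apply H _ b.ne_zero
    intro v
    have := Pool.Agent.Y682.charZero_adic v
    have h1 := hb.1 v
    rw [map_zero] at h1
    refine S2_S1 (i := algebraMap K (v.adicCompletion K) (em0 e im1)) ?_ h1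
    rw [← map_pow, Pool.Agent.Y715.Z.im1_sq, map_neg, map_one]
  obtain ⟨hf, hc⟩ := Zc_card hT (U := U) (V := U) (Or.inl rfl) H1 H2
  obtain ⟨h3, h4⟩ := Zc_lower hT
  have h6 : Nat.card (Zc W) ≤ 4 := hc.trans (by nlinarith)
  have h8 := h4.trans h6
  have hpos : 0 < Nat.card {x : Pool.Agent.TH841.NF.D.Sha W // 2 • x = 0} := by
    have : Nonempty {x : Pool.Agent.TH841.NF.D.Sha W // 2 • x = 0} := ⟨⟨0, smul_zero _⟩⟩
    exact Nat.card_pos
  have hr : Module.finrank ℤ (Pool.Agent.Y682.MP W) = 0 := by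
    by_contra hne
    have h9 : 2 ^ 1 ≤ 2 ^ (Module.finrank ℤ (Pool.Agent.Y682.MP W)) :=
      Nat.pow_le_pow_right (by norm_num) (Nat.pos_of_ne_zero hne)
    nlinarith
  have hfg : Module.Finite ℤ (Pool.Agent.Y682.MP W) := Pool.Agent.Y682.fg_MP hT
  have hfinP : Finite (Pool.Agent.Y682.MP W) := by
    have htor : Module.IsTorsion ℤ (Pool.Agent.Y682.MP W) := by
      rw [← Module.finrank_eq_zero_iff_isTorsion]
      exact hr
    exact Module.finite_of_fg_torsion _ htor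
  refine ⟨hfinP, ?_⟩
  have h5 : Nat.card {x : Pool.Agent.TH841.NF.D.Sha W // 2 • x = 0} ≤ 1 := by
    rw [hr] at h8
    omega
  have h6 : Subsingleton {x : Pool.Agent.TH841.NF.D.Sha W // 2 • x = 0} :=
    Finite.card_le_one_iff_subsingleton.1 h5
  have two : ∀ x : Pool.Agent.TH841.NF.D.Sha W, 2 • x = 0 → x = 0 := by
    intro x hx
    have h7 := @Subsingleton.elim _ h6 ⟨x, hx⟩ ⟨0, smul_zero _⟩
    exact congrArg Subtype.val h7
  intro n
  induction n with
  | zero => intro x hx; rwa [pow_zero, one_smul] at hx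
  | succ n ih =>
    intro x hx
    apply ih
    apply two
    rw [smul_smul, mul_comm, ← pow_succ]
    exact hx

include e in
open scoped Classical in
/-- the conclusion -/
theorem both' {δ A : K} (hδ : δ ≠ 0) (hA : A ≠ 0)
    (H : ∀ b : K, b ≠ 0 → LF δ b → ∃ c : K, b = c ^ 2 ∨ b = A * c ^ 2)
    {W : WeierstrassCurve K} (hT : IsT W 0 δ) :
    (∀ x : TensorProduct ℤ W.toAffine.Point ℚ_[2], x = 0) ∧
      ∀ x : Pool.Agent.Y667.BKP.H1f 2 W, x = 0 := by
  obtain ⟨hfin, hsha⟩ := both e hδ hA H hT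
  refine ⟨Pool.Agent.Y667.BKP.tensor_zero 2, ?_⟩
  refine Pool.Agent.Y667.BKP.h1f_zero Nat.prime_two hfin 0 fun k x hx => ?_
  rw [hsha k x hx, smul_zero]

end

end Pool.Agent.T2h16.Q4
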