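import Mathlib
import Pool.Agent.T2h16.Q4.Sel

/-!
# The twists `± D s ^ 2`, `- D ^ 2`, and the units, up to fourth powers
-/

set_option autoImplicit false
set_option linter.unusedSectionVars false

open NumberField IsDedekindDomain

namespace Pool.Agent.T2h16.Q4

open Pool.Agent.Y682 (S1 S2 vv vv_coe IsT)
open Pool.Agent.Y699
open Pool.Agent.Y715.Z
open H385 (ZI RQ im1 nrm)
open Pool.Agent.W164.RC (two2 prim_iff_dvd unit_norm unit_cases)

/-- the classes of the twists for which the Selmer group is generated by `D` or by `i` -/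
def Allowed (D δ : ZI) : Prop :=
  ∃ z : ZI, z ≠ 0 ∧ ((∃ (s : ZI) (n : ℕ), s ∣ D ^ n ∧
    (δ = D * s ^ 2 * z ^ 4 ∨ δ = -(D * s ^ 2 * z ^ 4))) ∨ δ = -(D ^ 2 * z ^ 4) ∨
    ∃ u : ZI, IsUnit u ∧ δ = u * z ^ 4)

lemma exp_odd {g x : WithZero (Multiplicative ℤ)} (hx : x ≠ 0)
    (h : WithZero.exp (-1 : ℤ) * x ^ 2 = g ^ 2) : False := by
  apply exp_sq (g := g / x)
  rw [div_pow, ← h]
  field_simp

section

variable {K : Type} [Field K] [NumberField K] (e : ZI ≃+* 𝓞 K)

lemma typ_odd {D : ZI} (hD : Squarefree D) {s z : ZI} {n : ℕ} (hs : s ∣ D ^ n) (hz0 : z ≠ 0)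
    {ε : K} (hε : ε ^ 2 = 1 ∨ ε ^ 2 = -1) :
    TypD e D (ε ^ 2 * em0 e (D * s ^ 2 * z ^ 4)) := by
  have hε0 : ε ≠ 0 := by
    rintro rfl
    rcases hε with h | h
    · norm_num at h
    · norm_num at h
  have hD0 := hD.ne_zero
  have hs0 : s ≠ 0 := by
    rintro rfl
    exact pow_ne_zero n hD0 (zero_dvd_iff.1 hs)
  have hne0 : D * s ^ 2 * z ^ 4 ≠ 0 := mul_ne_zero (mul_ne_zero hD0 (pow_ne_zero 2 hs0))
    (pow_ne_zero 4 hz0)
  have hval : ∀ v : HeightOneSpectrum (𝓞 K), v.valuation K (ε ^ 2) = 1 := by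
    intro v
    rcases hε with h | h
    · rw [h, map_one]
    · rw [h, Valuation.map_neg, map_one]
  refine ⟨mul_ne_zero (pow_ne_zero 2 hε0) (em0_ne e hne0), ?_, ?_⟩
  · intro p hp hpD
    refine ⟨(plc e hp).valuation K (em0 e z), ?_⟩
    have h1 : (plc e hp).valuation K (em0 e D) = 1 := val_one e hp hpD
    have h2 : (plc e hp).valuation K (em0 e s) = 1 :=
      val_one e hp (fun h' => hpD (hp.dvd_of_dvd_pow (h'.trans hs)))
    rw [map_mul, hval, one_mul]
    simp only [map_mul, map_pow, h1, h2, one_pow, one_mul]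
  · intro p hp hP hpD m hm
    have h2' : (plc e hp).valuation K 2 = 1 := by
      have := val_one e hp (not_dvd_two hP)
      rwa [map_ofNat] at this
    have hwd : vv (plc e hp) (ph e hp (ε ^ 2 * em0 e (D * s ^ 2 * z ^ 4))) =
        WithZero.exp (-1 : ℤ) * ((plc e hp).valuation K (em0 e (s * z ^ 2))) ^ 2 := by
      rw [vv_coe, map_mul, hval, one_mul]
      simp only [map_mul, map_pow]
      rw [val_sqf e hp hD hpD]
      simp only [mul_pow, ← pow_mul, mul_assoc]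
    have hne : ph e hp (ε ^ 2 * em0 e (D * s ^ 2 * z ^ 4)) ≠ 0 :=
      (map_ne_zero _).2 (mul_ne_zero (pow_ne_zero 2 hε0) (em0_ne e hne0))
    have hx : (plc e hp).valuation K (em0 e (s * z ^ 2)) ≠ 0 :=
      (Valuation.ne_zero_iff _).2 (em0_ne e (mul_ne_zero hs0 (pow_ne_zero 2 hz0)))
    obtain ⟨c, hc, hmc⟩ := cls_odd (vv (plc e hp)) (fun t ht => hens_odd (plc e hp) h2' t ht) hne
      (fun g hg => exp_odd hx (hwd.symm.trans hg)) hm
    rcases hmc with h | h
    · exact ⟨c, hc, Or.inl h⟩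
    · refine ⟨ph e hp (ε * em0 e (s * z ^ 2)) * c, mul_ne_zero ((map_ne_zero _).2 (mul_ne_zero hε0
        (em0_ne e (mul_ne_zero hs0 (pow_ne_zero 2 hz0))))) hc, Or.inr ?_⟩
      rw [h]
      simp only [map_mul, map_pow]
      ring

lemma typ_two {D : ZI} (hD : Squarefree D) {z : ZI} (hz0 : z ≠ 0) :
    TypD e D (-(em0 e (D * z ^ 2)) ^ 2) := by
  have hD0 := hD.ne_zero
  have hs0 : em0 e (D * z ^ 2) ≠ 0 := em0_ne e (mul_ne_zero hD0 (pow_ne_zero _ hz0))
  refine ⟨neg_ne_zero.2 (pow_ne_zero 2 hs0), ?_, ?_⟩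
  · intro p hp hpD
    refine ⟨(plc e hp).valuation K (em0 e z), ?_⟩
    have h1 : (plc e hp).valuation K (em0 e D) = 1 := val_one e hp hpD
    rw [Valuation.map_neg]
    simp only [map_mul, map_pow, h1, one_mul]
    rw [← pow_mul]
  · intro p hp hP hpD m hm
    have h2' : (plc e hp).valuation K 2 = 1 := by
      have := val_one e hp (not_dvd_two hP)
      rwa [map_ofNat] at this
    have hwd : vv (plc e hp) (ph e hp (em0 e (D * z ^ 2))) =
        WithZero.exp (-1 : ℤ) * ((plc e hp).valuation K (em0 e z)) ^ 2 := by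
      rw [vv_coe]
      simp only [map_mul, map_pow]
      rw [val_sqf e hp hD hpD]
    have hx : (plc e hp).valuation K (em0 e z) ≠ 0 :=
      (Valuation.ne_zero_iff _).2 (em0_ne e hz0)
    have hi : (ph e hp (em0 e im1)) ^ 2 = -1 := by
      rw [← map_pow, Pool.Agent.Y715.Z.im1_sq, map_neg, map_one]
    rw [map_neg, map_pow] at hm
    obtain ⟨c, hc, hmc⟩ := cls_sq (vv (plc e hp)) hi
      (fun t ht => hens_odd (plc e hp) h2' t ht) ((map_ne_zero _).2 hs0)
      (fun g hg => exp_odd hx (hwd.symm.trans hg)) hm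
    rcases hmc with h | h
    · exact ⟨c, hc, Or.inl h⟩
    · refine ⟨ph e hp (em0 e z) * c, mul_ne_zero ((map_ne_zero _).2
        (em0_ne e hz0)) hc, Or.inr ?_⟩
      rw [h]
      simp only [map_mul, map_pow]
      ring

open scoped Classical in
/-- the Mordell–Weil group and the Selmer group vanish -/
theorem allowed_zero {D : ZI} (hg : Good D) {δ : ZI} (ha : Allowed D δ)
    {W : WeierstrassCurve K} (hT : IsT W 0 (em0 e δ)) :
    (∀ x : TensorProduct ℤ W.toAffine.Point ℚ_[2], x = 0) ∧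
      ∀ x : Pool.Agent.Y667.BKP.H1f 2 W, x = 0 := by
  have hD0 := hg.ps.ne
  have hi : (em0 e im1 : K) ^ 2 = -1 := Pool.Agent.Y715.Z.im1_sq e
  obtain ⟨z, hz0, h⟩ := ha
  rcases h with ⟨s, n, hs, h | h⟩ | h | ⟨u, hu, h⟩
  · have ht : TypD e D (em0 e δ) := by
      have h1 := typ_odd e hg.ps.sqf hs hz0 (ε := (1 : K)) (Or.inl (one_pow 2))
      rwa [one_pow, one_mul, ← h] at h1
    exact both' e ht.ne (em0_ne e hD0) (fun b hb hl => selD e hg ht hb hl) hT
  · have ht : TypD e D (em0 e δ) := by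
      have h1 := typ_odd e hg.ps.sqf hs hz0 (ε := em0 e im1) (Or.inr hi)
      rw [hi, neg_one_mul, ← map_neg] at h1
      rwa [h]
    exact both' e ht.ne (em0_ne e hD0) (fun b hb hl => selD e hg ht hb hl) hT
  · have ht : TypD e D (em0 e δ) := by
      have h1 := typ_two e hg.ps.sqf hz0
      rw [← map_pow, ← map_neg] at h1
      rwa [h, show D ^ 2 * z ^ 4 = (D * z ^ 2) ^ 2 by ring]
    exact both' e ht.ne (em0_ne e hD0) (fun b hb hl => selD e hg ht hb hl) hT
  · have hδ : em0 e δ ≠ 0 := by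
      rw [h]
      exact em0_ne e (mul_ne_zero hu.ne_zero (pow_ne_zero _ hz0))
    have hi0 : im1 ≠ 0 := by
      intro h0
      rw [h0, map_zero] at hi
      norm_num at hi
    refine both' e hδ (em0_ne e hi0) (fun b hb hl => selU e hδ (fun p hp => ?_) hb hl) hT
    refine ⟨(plc e hp).valuation K (em0 e z), ?_⟩
    rw [h, map_mul, map_mul, val_one e hp (fun h' => hp.not_isUnit (isUnit_of_dvd_unit h' hu)),
      one_mul, map_pow, map_pow]

lemma allowed_ne {D δ : ZI} (hD : D ≠ 0) (h : Allowed D δ) : δ ≠ 0 := by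
  obtain ⟨z, hz0, h⟩ := h
  have hz4 := pow_ne_zero 4 hz0
  rcases h with ⟨s, n, hs, h⟩ | h | ⟨u, hu, h⟩
  · have hs0 : s ≠ 0 := by
      rintro rfl
      exact pow_ne_zero n hD (zero_dvd_iff.1 hs)
    have h1 : D * s ^ 2 * z ^ 4 ≠ 0 := mul_ne_zero (mul_ne_zero hD (pow_ne_zero 2 hs0)) hz4
    rcases h with h | h
    · rwa [h]
    · rw [h]; exact neg_ne_zero.2 h1
  · rw [h]; exact neg_ne_zero.2 (mul_ne_zero (pow_ne_zero 2 hD) hz4)
  · rw [h]; exact mul_ne_zero hu.ne_zero hz4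

end

end Pool.Agent.T2h16.Q4
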