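import Mathlib
import Pool.Agent.T2h16.Q4.Twi
import Pool.Agent.T2h16.Q4.Cone2

/-!
# Examples of forms
-/

set_option autoImplicit false
set_option linter.unusedSectionVars false

namespace Pool.Agent.T2h16.Q4

open Finset
open H385 (ZI RQ im1 nrm)

lemma pow_odd {D D₁ D₂ : ZI} (h : D = D₁ * D₂) (m : ℕ) :
    ∃ (s : ZI) (n : ℕ), s ∣ D ^ n ∧ (D₁ * D₂ ^ 3) ^ (2 * m + 1) = D * s ^ 2 * 1 ^ 4 := by
  refine ⟨D₂ * (D₁ * D₂ ^ 3) ^ m, 1 + 3 * m, ?_, ?_⟩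
  · rw [pow_add, pow_one, pow_mul]
    refine mul_dvd_mul ⟨D₁, by rw [h]; ring⟩ (pow_dvd_pow_of_dvd ?_ m)
    exact ⟨D₁ ^ 2, by rw [h]; ring⟩
  · rw [h]; ring

lemma pow_two' {D D₁ D₂ : ZI} (h : D = D₁ * D₂) (m : ℕ) :
    (D₁ * D₂ ^ 3) ^ (4 * m + 2) = D ^ 2 * (D₂ * (D₁ * D₂ ^ 3) ^ m) ^ 4 := by
  rw [h]; ring

/-- the powers of `T = D₁ D₂³` -/
lemma allowed_pow {D D₁ D₂ : ZI} (h : D = D₁ * D₂) (hD : D ≠ 0) (n : ℕ) {ε : ZI}
    (hε : ε = 1 ∨ ε = -1) (h2 : n % 4 = 2 → ε = -1) : Allowed D (ε * (D₁ * D₂ ^ 3) ^ n) := by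
  have hT0 : D₁ * D₂ ^ 3 ≠ 0 := by
    have h1 : D₁ ≠ 0 := by rintro rfl; exact hD (by rw [h, zero_mul])
    have h3 : D₂ ≠ 0 := by rintro rfl; exact hD (by rw [h, mul_zero])
    exact mul_ne_zero h1 (pow_ne_zero 3 h3)
  have h3 : D₂ ≠ 0 := by rintro rfl; exact hD (by rw [h, mul_zero])
  have hcases : n % 4 = 0 ∨ n % 4 = 2 ∨ n % 2 = 1 := by omega
  rcases hcases with h4 | h4 | h4
  · refine ⟨(D₁ * D₂ ^ 3) ^ (n / 4), pow_ne_zero _ hT0, Or.inr (Or.inr ⟨ε, ?_, ?_⟩)⟩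
    · rcases hε with h5 | h5
      · rw [h5]; exact isUnit_one
      · rw [h5]; exact isUnit_one.neg
    · rw [← pow_mul]
      congr 2
      omega
  · refine ⟨D₂ * (D₁ * D₂ ^ 3) ^ (n / 4), mul_ne_zero h3 (pow_ne_zero _ hT0),
      Or.inr (Or.inl ?_)⟩
    rw [h2 h4, neg_one_mul, ← pow_two' h]
    congr 2
    omega
  · obtain ⟨s, m, hs, h5⟩ := pow_odd h (n / 2)
    rw [show 2 * (n / 2) + 1 = n by omega] at h5
    refine ⟨1, one_ne_zero, Or.inl ⟨s, m, hs, ?_⟩⟩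
    rcases hε with h6 | h6
    · left; rw [h6, one_mul, h5]
    · right; rw [h6, neg_one_mul, h5]

lemma neg_pow_cases (n : ℕ) : ((-1 : ZI)) ^ n = 1 ∨ ((-1 : ZI)) ^ n = -1 := neg_one_pow_eq_or ZI n

/-- the threefold -/
theorem ex3 {D D₁ D₂ : ZI} (h : D = D₁ * D₂) (hD : D ≠ 0) {c : Fin 5 → ℕ}
    (hc : ∀ i, 1 ≤ c i ∧ c i ≤ 3) (h8 : ∑ i, c i = 8) :
    Allowed D (tw ![1, 1, 1, D₁ * D₂ ^ 3, (D₁ * D₂ ^ 3) ^ 3] c) := by
  have e1 : tw ![1, 1, 1, D₁ * D₂ ^ 3, (D₁ * D₂ ^ 3) ^ 3] c =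
      (-1) ^ (univ.filter fun i => c i = 3).card * (D₁ * D₂ ^ 3) ^ (c 3 + 3 * c 4) := by
    unfold tw
    rw [Fin.prod_univ_five]
    simp only [Matrix.cons_val, one_pow, one_mul]
    rw [pow_add, pow_mul]
  rw [e1]
  refine allowed_pow h hD _ (neg_pow_cases _) ?_
  intro h2
  have h3 : (univ.filter fun i => c i = 3).card = 1 := by
    rcases cases8 hc h8 with ⟨-, -, h3⟩ | ⟨-, -, h3⟩
    · exfalso
      rw [Finset.card_eq_zero, Finset.filter_eq_empty_iff] at h3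
      have h4 := h3 (Finset.mem_univ (3 : Fin 5))
      have h5 := h3 (Finset.mem_univ (4 : Fin 5))
      have h6 := hc 3
      have h7 := hc 4
      have h9 : c 3 = 1 ∨ c 3 = 2 := by omega
      have h10 : c 4 = 1 ∨ c 4 = 2 := by omega
      rcases h9 with h9 | h9 <;> rcases h10 with h10 | h10 <;> rw [h9, h10] at h2 <;> omega
    · exact h3
  rw [h3, pow_one]

/-- the double solid -/
theorem exD {D D₁ D₂ : ZI} (h : D = D₁ * D₂) (hD : D ≠ 0) {c : Fin 5 → ℕ}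
    (hc : ∀ i, 1 ≤ c i ∧ c i ≤ 3) (h0 : c 0 = 2) (h8 : ∑ i, c i = 8) :
    Allowed D (tw ![im1, D₁ * D₂ ^ 3, 1, 1, 1] c) := by
  have e1 : tw ![im1, D₁ * D₂ ^ 3, 1, 1, 1] c =
      ((-1) ^ (univ.filter fun i => c i = 3).card * (-1)) * (D₁ * D₂ ^ 3) ^ (c 1) := by
    unfold tw
    rw [Fin.prod_univ_five]
    simp only [Matrix.cons_val, one_pow, mul_one, h0]
    rw [show (im1 ^ 2 : ZI) = -1 by decide]
    ring
  rw [e1]
  refine allowed_pow h hD _ ?_ ?_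
  · rcases neg_pow_cases (univ.filter fun i => c i = 3).card with h1 | h1
    · rw [h1]; right; ring
    · rw [h1]; left; ring
  intro h2
  have h3 : (univ.filter fun i => c i = 3).card = 0 := by
    rw [Finset.card_eq_zero, Finset.filter_eq_empty_iff]
    intro i _
    rw [Fin.sum_univ_five] at h8
    have h6 := hc 0
    have h7 := hc 1
    have h9 := hc 2
    have h10 := hc 3
    have h11 := hc 4
    fin_cases i <;> simp only [Fin.zero_eta, Fin.mk_one, Fin.reduceFinMk] <;> omega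
  rw [h3]
  ring

end Pool.Agent.T2h16.Q4
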