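import Mathlib
import Pool.Agent.T2h16.Q4.Twi
import Pool.Agent.T2h16.Q4.Cone2

/-!
# The cohomology of the quartic threefolds and of the quartic double solids over `ℚ(i)`
-/

set_option autoImplicit false
set_option linter.unusedSectionVars false
set_option linter.style.haveILetI false

open NumberField IsDedekindDomain

namespace Pool.Agent.T2h16.Q4

open Finset
open H385 (ZI RQ im1 nrm)

/-- The solutions, not all zero, of `∑ a i x i ^ d i = 0` in the field `F`. -/
def solutions (d : Fin 5 → ℕ) {F : Type} [Field F] (a : Fin 5 → F) : Set (Fin 5 → F) :=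
  {x | x ≠ 0 ∧ ∑ i, a i * x i ^ d i = 0}

lemma sol_ncard {d : Fin 5 → ℕ} (hd : ∀ i, d i = 2 ∨ d i = 4) {F : Type} [Field F] [Finite F]
    (a : Fin 5 → F) : ((solutions d a).ncard : ℂ) = (Nat.card (Cn d a) : ℂ) - 1 := by
  have h1 : Nat.card (Cn d a) = ({x : Fin 5 → F | ∑ i, a i * x i ^ d i = 0}).ncard := by
    rw [← Nat.card_coe_set_eq]
    rfl
  have h2 : {x : Fin 5 → F | ∑ i, a i * x i ^ d i = 0} = insert 0 (solutions d a) := by
    ext x
    simp only [Set.mem_ofPred_eq, Set.mem_insert_iff, solutions]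
    constructor
    · intro h
      by_cases hx : x = 0
      · exact Or.inl hx
      · exact Or.inr ⟨hx, h⟩
    · rintro (rfl | h)
      · refine Finset.sum_eq_zero fun i _ => ?_
        have : d i ≠ 0 := by
          rcases hd i with h | h <;> omega
        simp [this]
      · exact h.2
  rw [h1, h2, Set.ncard_insert_of_notMem (by simp [solutions]) (Set.toFinite _)]
  push_cast
  ring

section
variable {K : Type} [Field K] [NumberField K] (e : ZI ≃+* 𝓞 K)

/-- the eigenvalues at a place -/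
theorem place (v : HeightOneSpectrum (𝓞 K)) (h2 : (2 : 𝓞 K) ∉ v.asIdeal) {d : Fin 5 → ℕ}
    (hd : ∀ i, d i = 2 ∨ d i = 4) {a : Fin 5 → ZI} (ha : ∀ i, e (a i) ∉ v.asIdeal) :
    ∃ β : (Fin 5 → ℕ) → ℂ,
      (∀ c, β c * (starRingEnd ℂ) (β c) = Ideal.absNorm v.asIdeal ∧
        (Nat.card {P : (𝓞 K ⧸ v.asIdeal) × (𝓞 K ⧸ v.asIdeal) //
          P.2 ^ 2 = P.1 ^ 3 + Ideal.Quotient.mk v.asIdeal (e (tw a c)) * P.1} : ℂ) =
            Ideal.absNorm v.asIdeal - (β c + (starRingEnd ℂ) (β c))) ∧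
      ∀ (F : Type) [Field F] [Finite F] (f : 𝓞 K →+* F) (r : ℕ), RingHom.ker f = v.asIdeal →
        Nat.card F = Ideal.absNorm v.asIdeal ^ r →
        ((solutions d fun i => f (e (a i))).ncard : ℂ) = (Nat.card F - 1) *
          (∑ i ∈ Finset.range 4, (Nat.card F : ℂ) ^ i -
            ∑ c ∈ Ty d, (((Ideal.absNorm v.asIdeal : ℂ) * β c) ^ r +
                ((Ideal.absNorm v.asIdeal : ℂ) * (starRingEnd ℂ) (β c)) ^ r)) := by
  classical
  have hm : v.asIdeal.IsMaximal := v.isMaximal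
  letI : Field (𝓞 K ⧸ v.asIdeal) := Ideal.Quotient.field v.asIdeal
  have hq : Nat.card (𝓞 K ⧸ v.asIdeal) = Ideal.absNorm v.asIdeal := by
    rw [Ideal.absNorm_apply, Submodule.cardQuot_apply]
  have hfin : Finite (𝓞 K ⧸ v.asIdeal) := by
    refine Nat.finite_of_card_ne_zero ?_
    rw [hq]
    exact (Ideal.absNorm_ne_zero_iff_mem_nonZeroDivisors.2
      (mem_nonZeroDivisors_iff_ne_zero.2 v.ne_bot))
  letI : Fintype (𝓞 K ⧸ v.asIdeal) := Fintype.ofFinite _
  have hcard : Fintype.card (𝓞 K ⧸ v.asIdeal) = Ideal.absNorm v.asIdeal := by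
    rw [← Nat.card_eq_fintype_card, hq]
  have hne : ∀ x : 𝓞 K, x ∉ v.asIdeal → Ideal.Quotient.mk v.asIdeal x ≠ 0 := fun x hx => by
    rwa [Ne, Ideal.Quotient.eq_zero_iff_mem]
  -- a square root of `-1`
  have h4 : 4 ∣ Fintype.card (𝓞 K ⧸ v.asIdeal) - 1 := by
    have hi : (Ideal.Quotient.mk v.asIdeal (e im1)) ^ 2 = -1 := by
      rw [← map_pow, ← map_pow, show (im1 ^ 2 : ZI) = -1 by decide, map_neg, map_one, map_neg,
        map_one]
    have h20 : (2 : 𝓞 K ⧸ v.asIdeal) ≠ 0 := by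
      have := hne 2 h2
      rwa [map_ofNat] at this
    set j := Ideal.Quotient.mk v.asIdeal (e im1) with hj
    have hj0 : j ≠ 0 := by
      intro h0
      rw [h0, zero_pow two_ne_zero] at hi
      have : (1 : 𝓞 K ⧸ v.asIdeal) = 0 := by linear_combination hi
      exact one_ne_zero this
    have h5 : orderOf (Units.mk0 j hj0) = 4 := by
      have : Fact (Nat.Prime 2) := ⟨Nat.prime_two⟩
      refine orderOf_eq_prime_pow (p := 2) (n := 1) ?_ ?_
      · rw [pow_one]
        intro h6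
        have h7 := congrArg Units.val h6
        rw [Units.val_pow_eq_pow_val, Units.val_mk0, hi, Units.val_one] at h7
        apply h20
        linear_combination -h7
      · apply Units.ext
        rw [Units.val_pow_eq_pow_val, Units.val_mk0, Units.val_one, show 2 ^ (1 + 1) = 2 * 2 from rfl,
          pow_mul, hi]
        norm_num
    rw [← h5, ← Fintype.card_units]
    exact orderOf_dvd_card
  obtain ⟨β, -, hβ2, hβ3⟩ := exists_beta (𝓞 K ⧸ v.asIdeal) h4
  set φ : ZI →+* (𝓞 K ⧸ v.asIdeal) := (Ideal.Quotient.mk v.asIdeal).comp (e : ZI →+* 𝓞 K) with hφ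
  have hφa : ∀ x, φ x = Ideal.Quotient.mk v.asIdeal (e x) := fun x => rfl
  have ha' : ∀ i, φ (a i) ≠ 0 := fun i => hne _ (ha i)
  have htw : ∀ c, tw (fun i => φ (a i)) c = φ (tw a c) := fun c => tw_map φ a c
  refine ⟨fun c => β (φ (tw a c)), fun c => ?_, ?_⟩
  · have h5 : φ (tw a c) ≠ 0 := by
      rw [← htw]
      exact tw_ne ha' c
    obtain ⟨h6, h7⟩ := hβ2 _ h5
    rw [hcard] at h6 h7
    refine ⟨h6, ?_⟩
    rw [← hφa, h7]
    ring
  · intro F _ _ f r hker hF
    -- the algebra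
    let g : (𝓞 K ⧸ v.asIdeal) →+* F := Ideal.Quotient.lift v.asIdeal f (fun x hx => by
      rw [← hker] at hx
      exact hx)
    letI : Algebra (𝓞 K ⧸ v.asIdeal) F := g.toAlgebra
    have hg : ∀ x : ZI, algebraMap (𝓞 K ⧸ v.asIdeal) F (φ x) = f (e x) := fun x => rfl
    haveI : Module.Finite (𝓞 K ⧸ v.asIdeal) F := Module.Finite.of_finite
    have hr : Module.finrank (𝓞 K ⧸ v.asIdeal) F = r := by
      have h5 := Module.natCard_eq_pow_finrank (K := 𝓞 K ⧸ v.asIdeal) (V := F)
      rw [hF, hq] at h5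
      refine (Nat.pow_right_injective ?_ h5).symm
      rw [← hcard]
      exact Fintype.one_lt_card
    have h5 := hβ3 d hd (fun i => φ (a i)) ha' F
    simp only [hg, hr, htw] at h5
    rw [sol_ncard hd, h5, hcard]
    have hgeom : ((Nat.card F : ℂ) - 1) * ∑ i ∈ Finset.range 4, (Nat.card F : ℂ) ^ i =
        (Nat.card F : ℂ) ^ 4 - 1 := by
      rw [mul_comm]
      exact geom_sum_mul _ _
    rw [mul_sub, hgeom]
    ring

end

end Pool.Agent.T2h16.Q4
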